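import Pool.Agent.W123.RP.Mert

set_option autoImplicit false

/-!
# Products over the primes with few classes; linear congruences
-/

namespace Pool.Agent.W123.RP

open Finset Filter Pool.Agent.H373R2.T7

theorem Vq_upper (Q : ℕ → ℕ → Prop) (g p1 : ℕ) (h : ∀ p : ℕ, p.Prime → p1 < p → g ≤ nuB Q p) :
    ∃ Cv : ℝ, 0 < Cv ∧ ∀ y : ℕ, 2 ≤ y → Vq Q y ≤ Cv / Real.log y ^ g := by
  obtain ⟨c, C, hc, hC, hV⟩ := Vz_bounds
  set M : ℝ := ∏ p ∈ pz p1, (p : ℝ) ^ g with hM
  have hM0 : 0 < M := Finset.prod_pos fun p hp => by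
    have : (0 : ℝ) < p := by exact_mod_cast (mem_pz.1 hp).2.pos
    positivity
  refine ⟨M * C ^ g, by positivity, ?_⟩
  intro y hy
  have hlog : 0 < Real.log y := Real.log_pos (by exact_mod_cast (by omega : 1 < y))
  have h1 : Vq Q y ≤ ∏ p ∈ pz y, ((if p ≤ p1 then (p : ℝ) ^ g else 1) * (1 - 1 / (p : ℝ)) ^ g) := by
    apply Finset.prod_le_prod
    · intro p hp
      exact one_sub_nonneg Q p (mem_pz.1 hp).2
    · intro p hp
      have hpp := (mem_pz.1 hp).2
      have hp2 : (2 : ℝ) ≤ p := by exact_mod_cast hpp.two_le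
      have hp0 : (0 : ℝ) < p := by linarith
      split_ifs with h1
      · rw [← mul_pow]
        have h2 : (1 : ℝ) ≤ (p * (1 - 1 / (p : ℝ))) ^ g := by
          apply one_le_pow₀
          rw [mul_sub, mul_one, mul_one_div_cancel hp0.ne']
          linarith
        have h3 : 0 ≤ (nuB Q p : ℝ) / p := by positivity
        linarith
      · rw [one_mul]
        have h2 := h p hpp (not_le.1 h1)
        have h3 : (g : ℝ) / p ≤ (nuB Q p : ℝ) / p := by
          apply div_le_div_of_nonneg_right _ hp0.le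
          exact_mod_cast h2
        have h4 := one_add_mul_le_pow (a := -(1 / (p : ℝ))) (by
          have : 1 / (p : ℝ) ≤ 1 := by rw [div_le_one hp0]; linarith
          linarith) g
        have h5 : 1 + (g : ℝ) * -(1 / (p : ℝ)) = 1 - g / p := by ring
        rw [h5, ← sub_eq_add_neg] at h4
        linarith
  refine h1.trans ?_
  rw [Finset.prod_mul_distrib, Finset.prod_pow]
  have h2 : ∏ p ∈ pz y, (if p ≤ p1 then (p : ℝ) ^ g else 1) ≤ M := by
    rw [Finset.prod_ite, Finset.prod_const_one, mul_one]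
    apply Finset.prod_le_prod_of_subset_of_one_le
    · intro p hp
      rw [mem_filter, mem_pz] at hp
      exact mem_pz.2 ⟨hp.2, hp.1.2⟩
    · intro p _; positivity
    · intro p hp _
      have : (1 : ℝ) ≤ p := by exact_mod_cast (mem_pz.1 hp).2.one_lt.le
      exact one_le_pow₀ this
  have h3 : (∏ p ∈ pz y, (1 - 1 / (p : ℝ))) ^ g ≤ (C / Real.log y) ^ g := by
    apply pow_le_pow_left₀ _ (hV y hy).2
    apply Finset.prod_nonneg
    intro p hp
    have : (1 : ℝ) ≤ p := by exact_mod_cast (mem_pz.1 hp).2.one_lt.le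
    rw [sub_nonneg, div_le_one (by linarith)]
    exact this
  calc _ ≤ M * (C / Real.log y) ^ g := by
        apply mul_le_mul h2 h3 _ hM0.le
        apply pow_nonneg
        apply Finset.prod_nonneg
        intro p hp
        have : (1 : ℝ) ≤ p := by exact_mod_cast (mem_pz.1 hp).2.one_lt.le
        rw [sub_nonneg, div_le_one (by linarith)]
        exact this
    _ = _ := by rw [div_pow]; ring

/-- lower bound for a product with weights `a p / (p - 1)`, `a p ≤ g` -/
theorem prod_lower (a : ℕ → ℕ) (g : ℕ) (ha : ∀ p : ℕ, p.Prime → a p ≤ g)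
    (ha2 : ∀ p : ℕ, p.Prime → a p + 2 ≤ p) :
    ∃ c0 : ℝ, 0 < c0 ∧ ∀ y : ℕ, 2 ≤ y →
      c0 / Real.log y ^ g ≤ ∏ p ∈ pz y, (1 - (a p : ℝ) / (p - 1 : ℝ)) := by
  obtain ⟨c, C, hc, hC, hV⟩ := Vz_bounds
  obtain ⟨C2, hC2, hsq⟩ := prod_sq_le (2 * (g ^ 2 + 2 * g))
  set p1 : ℕ := 4 * g + 4 with hp1
  set M : ℝ := ∏ p ∈ pz p1, (p : ℝ)⁻¹ with hM
  have hM0 : 0 < M := Finset.prod_pos fun p hp => by
    have : (0 : ℝ) < p := by exact_mod_cast (mem_pz.1 hp).2.pos
    positivity
  refine ⟨M * (c ^ g) / C2, by positivity, ?_⟩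
  intro y hy
  have hlog : 0 < Real.log y := Real.log_pos (by exact_mod_cast (by omega : 1 < y))
  -- factorwise
  have h1 : ∏ p ∈ pz y, ((if p ≤ p1 then (p : ℝ)⁻¹ else 1) * (1 - 1 / (p : ℝ)) ^ g) ≤
      ∏ p ∈ pz y, ((1 - (a p : ℝ) / (p - 1 : ℝ)) * (1 + ((2 * (g ^ 2 + 2 * g) : ℕ) : ℝ) / (p : ℝ) ^ 2)) := by
    apply Finset.prod_le_prod
    · intro p hp
      have : (1 : ℝ) ≤ p := by exact_mod_cast (mem_pz.1 hp).2.one_lt.le
      have h2 : 0 ≤ 1 - 1 / (p : ℝ) := by
        rw [sub_nonneg, div_le_one (by linarith)]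
        exact this
      split_ifs <;> positivity
    · intro p hp
      have hpp := (mem_pz.1 hp).2
      have hp2 : (2 : ℝ) ≤ p := by exact_mod_cast hpp.two_le
      have hp0 : (0 : ℝ) < p := by linarith
      have hp10 : (0 : ℝ) < (p : ℝ) - 1 := by linarith
      have hu1 : 0 ≤ 1 - 1 / (p : ℝ) := by
        rw [sub_nonneg, div_le_one hp0]; linarith
      split_ifs with h1
      · have h2 : (p : ℝ)⁻¹ ≤ 1 - (a p : ℝ) / (p - 1 : ℝ) := by
          have h3 : (a p : ℝ) + 2 ≤ p := by exact_mod_cast ha2 p hpp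
          have h4 : (a p : ℝ) / (p - 1 : ℝ) ≤ 1 - (p : ℝ)⁻¹ := by
            rw [div_le_iff₀ hp10]
            have h5 : (1 - (p : ℝ)⁻¹) * ((p : ℝ) - 1) = p - 2 + (p : ℝ)⁻¹ := by
              field_simp
              ring
            rw [h5]
            have : 0 < (p : ℝ)⁻¹ := by positivity
            linarith
          linarith
        have h3 : (1 - 1 / (p : ℝ)) ^ g ≤ 1 := pow_le_one₀ hu1 (by
          have : 0 ≤ 1 / (p : ℝ) := by positivity
          linarith)
        have h4 : (1 : ℝ) ≤ 1 + ((2 * (g ^ 2 + 2 * g) : ℕ) : ℝ) / (p : ℝ) ^ 2 := by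
          have : 0 ≤ ((2 * (g ^ 2 + 2 * g) : ℕ) : ℝ) / (p : ℝ) ^ 2 := by positivity
          linarith
        calc (p : ℝ)⁻¹ * (1 - 1 / (p : ℝ)) ^ g ≤ (p : ℝ)⁻¹ * 1 := by gcongr
          _ = (p : ℝ)⁻¹ * 1 := rfl
          _ ≤ (1 - (a p : ℝ) / (p - 1 : ℝ)) * (1 + ((2 * (g ^ 2 + 2 * g) : ℕ) : ℝ) / (p : ℝ) ^ 2) := by
            apply mul_le_mul h2 h4 (by norm_num)
            exact le_trans (by positivity) h2
      · rw [one_mul]
        push Not at h1
        have hpg : 4 * (g : ℝ) + 4 ≤ p := by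
          have : 4 * g + 4 ≤ p := by omega
          exact_mod_cast this
        set u : ℝ := 1 / (p : ℝ) with hu
        have hu0 : 0 < u := by positivity
        have hgu : (g : ℝ) * u ≤ 1 / 4 := by
          rw [hu, mul_one_div, div_le_iff₀ hp0]; linarith
        have hu4 : u ≤ 1 / 4 := by
          rw [hu, div_le_iff₀ hp0]
          have : (0 : ℝ) ≤ g := Nat.cast_nonneg g
          linarith
        have hg0 : (0 : ℝ) ≤ g := Nat.cast_nonneg g
        -- upper bound of the power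
        have h2 : (1 - u) ^ g ≤ 1 - g * u + (g * u) ^ 2 := by
          have h3 : (1 - u) ^ g ≤ Real.exp (-(g * u)) := by
            have h4 : 1 - u ≤ Real.exp (-u) := by
              have := Real.add_one_le_exp (-u)
              linarith
            calc (1 - u) ^ g ≤ (Real.exp (-u)) ^ g := pow_le_pow_left₀ hu1 h4 g
              _ = Real.exp (-(g * u)) := by
                rw [← Real.exp_nat_mul]
                congr 1
                ring
          have h5 := Real.abs_exp_sub_one_sub_id_le (x := -(g * u)) (by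
            rw [abs_neg, abs_of_nonneg (by positivity)]
            linarith)
          have h6 := (abs_le.1 h5).2
          have h7 : (-(g * u)) ^ 2 = ((g : ℝ) * u) ^ 2 := by ring
          rw [h7] at h6
          linarith
        -- lower bound of the factor
        have h3 : 1 - g * u - 2 * g * u ^ 2 ≤ 1 - (a p : ℝ) / (p - 1 : ℝ) := by
          have h4 : (a p : ℝ) ≤ g := by exact_mod_cast ha p hpp
          have h5 : (a p : ℝ) / (p - 1 : ℝ) ≤ g / (p - 1 : ℝ) := by gcongr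
          have h6 : (g : ℝ) / (p - 1 : ℝ) ≤ g * u + 2 * g * u ^ 2 := by
            rw [div_le_iff₀ hp10]
            have h7 : (p : ℝ) - 1 = (1 - u) / u := by rw [hu]; field_simp
            rw [h7]
            have h8 : (g * u + 2 * g * u ^ 2) * ((1 - u) / u) = g * (1 + 2 * u) * (1 - u) := by
              field_simp
            rw [h8]
            nlinarith [mul_nonneg hg0 hu0.le]
          linarith
        set K : ℝ := ((2 * (g ^ 2 + 2 * g) : ℕ) : ℝ) with hK
        have hKv : K = 2 * ((g : ℝ) ^ 2 + 2 * g) := by rw [hK]; push_cast; ring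
        have h4 : K / (p : ℝ) ^ 2 = K * u ^ 2 := by rw [hu]; ring
        rw [h4]
        have hK0 : 0 ≤ K * u ^ 2 := by positivity
        have h5 : 1 - g * u + (g * u) ^ 2 ≤ (1 - g * u - 2 * g * u ^ 2) * (1 + K * u ^ 2) := by
          have h6 : 1 / 2 ≤ 1 - g * u - 2 * g * u ^ 2 := by nlinarith
          have h7 : (1 / 2) * (K * u ^ 2) ≤ (1 - g * u - 2 * g * u ^ 2) * (K * u ^ 2) := by gcongr
          have h8 : (1 / 2) * (K * u ^ 2) = (g * u) ^ 2 + 2 * g * u ^ 2 := by rw [hKv]; ring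
          nlinarith
        refine h2.trans (h5.trans ?_)
        gcongr
  rw [Finset.prod_mul_distrib, Finset.prod_mul_distrib, Finset.prod_pow] at h1
  have h2 : M ≤ ∏ p ∈ pz y, (if p ≤ p1 then (p : ℝ)⁻¹ else 1) := by
    rw [Finset.prod_ite, Finset.prod_const_one, mul_one]
    have hsub : (pz y).filter (fun p => p ≤ p1) ⊆ pz p1 := by
      intro p hp
      rw [mem_filter, mem_pz] at hp
      exact mem_pz.2 ⟨hp.2, hp.1.2⟩
    rw [hM, ← Finset.prod_sdiff hsub]
    have h3 : ∏ p ∈ pz p1 \ (pz y).filter (fun p => p ≤ p1), (p : ℝ)⁻¹ ≤ 1 := by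
      apply Finset.prod_le_one
      · intro p _; positivity
      · intro p hp
        have : (1 : ℝ) ≤ p := by exact_mod_cast (mem_pz.1 (mem_sdiff.1 hp).1).2.one_lt.le
        exact inv_le_one_of_one_le₀ this
    have h4 : 0 ≤ ∏ p ∈ (pz y).filter (fun p => p ≤ p1), (p : ℝ)⁻¹ :=
      Finset.prod_nonneg fun p _ => by positivity
    nlinarith
  have hPnn : 0 ≤ ∏ p ∈ pz y, (1 - (a p : ℝ) / (p - 1 : ℝ)) := by
    apply Finset.prod_nonneg
    intro p hp
    have hpp := (mem_pz.1 hp).2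
    have hp2 : (2 : ℝ) ≤ p := by exact_mod_cast hpp.two_le
    have h3 : (a p : ℝ) + 2 ≤ p := by exact_mod_cast ha2 p hpp
    rw [sub_nonneg, div_le_one (by linarith)]
    linarith
  have h3 : (c / Real.log y) ^ g ≤ (∏ p ∈ pz y, (1 - 1 / (p : ℝ))) ^ g :=
    pow_le_pow_left₀ (by positivity) (hV y hy).1 g
  have h4 : M * (c / Real.log y) ^ g ≤ (∏ p ∈ pz y, (1 - (a p : ℝ) / (p - 1 : ℝ))) * C2 := by
    calc M * (c / Real.log y) ^ g ≤ (∏ p ∈ pz y, (if p ≤ p1 then (p : ℝ)⁻¹ else 1)) *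
        (∏ p ∈ pz y, (1 - 1 / (p : ℝ))) ^ g := mul_le_mul h2 h3 (by positivity) (hM0.le.trans h2)
      _ ≤ _ := h1
      _ ≤ (∏ p ∈ pz y, (1 - (a p : ℝ) / (p - 1 : ℝ))) * C2 :=
        mul_le_mul_of_nonneg_left (hsq y) hPnn
  have hC20 : 0 < C2 := by linarith
  calc M * c ^ g / C2 / Real.log y ^ g = M * (c / Real.log y) ^ g / C2 := by rw [div_pow]; ring
    _ ≤ _ := by rw [div_le_iff₀ hC20]; exact h4

open Classical in
/-- one root of a linear congruence -/
theorem linear_card (p : ℕ) (hp : p.Prime) (a b : ℤ) (ha : ¬ (p : ℤ) ∣ a) :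
    ((range p).filter (fun r : ℕ => (p : ℤ) ∣ a * r + b)).card = 1 := by
  haveI : Fact p.Prime := ⟨hp⟩
  rw [Finset.card_eq_one]
  have ha' : (a : ZMod p) ≠ 0 := by
    rw [Ne, ZMod.intCast_zmod_eq_zero_iff_dvd]
    exact ha
  refine ⟨(-(b : ZMod p) / a).val, ?_⟩
  ext r
  rw [mem_filter, mem_range, mem_singleton]
  have key : (p : ℤ) ∣ a * r + b ↔ (r : ZMod p) = -(b : ZMod p) / a := by
    rw [← ZMod.intCast_zmod_eq_zero_iff_dvd]
    push_cast
    rw [eq_div_iff ha', mul_comm (r : ZMod p), ← sub_eq_zero (b := -(b : ZMod p)), sub_neg_eq_add]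
  constructor
  · rintro ⟨h1, h2⟩
    rw [← key.1 h2, ZMod.val_natCast, Nat.mod_eq_of_lt h1]
  · intro h
    refine ⟨by rw [h]; exact ZMod.val_lt _, ?_⟩
    rw [key, h, ZMod.natCast_val, ZMod.cast_id]

end Pool.Agent.W123.RP
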