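import Mathlib

set_option autoImplicit false

/-!
# Regular points of a set, from a second moment bound
-/

namespace Pool.Agent.W123.RP

section Gen

variable (P : ℕ → Prop) [DecidablePred P]

/-- elements of `P` in `(a, b]` -/
def co (a b : ℕ) : ℕ := ((Finset.Ioc a b).filter P).card

/-- elements of `P` in `[a, b)` -/
def cl (a b : ℕ) : ℕ := ((Finset.Ico a b).filter P).card

variable {P}

lemma co_add {a b c : ℕ} (hab : a ≤ b) (hbc : b ≤ c) : co P a b + co P b c = co P a c := by
  unfold co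
  rw [← Finset.Ioc_union_Ioc_eq_Ioc hab hbc, Finset.filter_union, Finset.card_union_of_disjoint]
  rw [Finset.disjoint_left]
  intro x hx hy
  rw [Finset.mem_filter, Finset.mem_Ioc] at hx hy
  omega

lemma cl_add {a b c : ℕ} (hab : a ≤ b) (hbc : b ≤ c) : cl P a b + cl P b c = cl P a c := by
  unfold cl
  rw [← Finset.Ico_union_Ico_eq_Ico hab hbc, Finset.filter_union, Finset.card_union_of_disjoint]
  rw [Finset.disjoint_left]
  intro x hx hy
  rw [Finset.mem_filter, Finset.mem_Ico] at hx hy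
  omega

lemma cl_le_len (a b : ℕ) : cl P a b ≤ b - a := by
  unfold cl
  refine (Finset.card_filter_le _ _).trans ?_
  rw [Nat.card_Ico]

lemma co_mono {a b b' : ℕ} (h : b ≤ b') : co P a b ≤ co P a b' := by
  unfold co
  exact Finset.card_le_card (Finset.filter_subset_filter _ (Finset.Ioc_subset_Ioc_right h))

lemma co_anti {a a' b : ℕ} (h : a ≤ a') : co P a' b ≤ co P a b := by
  unfold co
  exact Finset.card_le_card (Finset.filter_subset_filter _ (Finset.Ioc_subset_Ioc_left h))

lemma cl_mono {a b b' : ℕ} (h : b ≤ b') : cl P a b ≤ cl P a b' := by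
  unfold cl
  exact Finset.card_le_card (Finset.filter_subset_filter _ (Finset.Ico_subset_Ico_right h))

lemma cl_anti {a a' b : ℕ} (h : a ≤ a') : cl P a' b ≤ cl P a b := by
  unfold cl
  exact Finset.card_le_card (Finset.filter_subset_filter _ (Finset.Ico_subset_Ico_left h))

lemma co_self (a : ℕ) : co P a a = 0 := by simp [co]

lemma cl_succ (a b : ℕ) : cl P (a + 1) (b + 1) = co P a b := by
  unfold co cl
  congr 1
  ext x
  rw [Finset.mem_filter, Finset.mem_filter, Finset.mem_Ico, Finset.mem_Ioc]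
  constructor
  · rintro ⟨h1, h2⟩; exact ⟨by omega, h2⟩
  · rintro ⟨h1, h2⟩; exact ⟨by omega, h2⟩

lemma cl_le_one (a : ℕ) : (cl P a (a + 1) : ℝ) ≤ 1 := by
  have := cl_le_len (P := P) a (a + 1)
  have h : cl P a (a + 1) ≤ 1 := by omega
  exact_mod_cast h

lemma mem_of_cl {c : ℝ} (hc : 0 < c) {n : ℕ} (h : c * ((1 : ℕ) : ℝ) ≤ cl P n (n + 1)) : P n := by
  by_contra hnp
  have h2 : cl P n (n + 1) = 0 := by
    unfold cl
    rw [Nat.Ico_succ_singleton, Finset.filter_singleton, if_neg hnp]
    rfl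
  rw [h2] at h
  push_cast at h
  linarith

open Classical in
/-- Greedy covering from the left: many left endpoints of dense windows. -/
lemma lower_right (c : ℝ) (hc : 0 < c) (K : ℕ) (d : ℕ) : ∀ a b : ℕ, b - a = d → a ≤ b →
    (cl P a b : ℝ) ≤ c * ((b : ℝ) - a + K) + (((Finset.Ico a b).filter (fun n => ∀ H : ℕ, 1 ≤ H →
      H ≤ K → c * H ≤ cl P n (n + H))).card : ℝ) := by
  induction d using Nat.strong_induction_on with
  | _ d ih =>
    intro a b hd hab
    have hK0 : (0 : ℝ) ≤ K := Nat.cast_nonneg K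
    rcases Nat.eq_or_lt_of_le hab with rfl | hlt
    · simp only [cl, Finset.Ico_self, Finset.filter_empty, Finset.card_empty, Nat.cast_zero,
        sub_self, zero_add, add_zero]
      positivity
    have hltr : (a : ℝ) + 1 ≤ b := by exact_mod_cast hlt
    by_cases hgood : ∀ H : ℕ, 1 ≤ H → H ≤ K → c * H ≤ cl P a (a + H)
    · have h1 := ih (b - (a + 1)) (by omega) (a + 1) b rfl hlt
      have h2 := cl_add (P := P) (a := a) (b := a + 1) (c := b) (by omega) (by omega)
      have h3 := cl_le_one (P := P) a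
      have h4 : (cl P a b : ℝ) ≤ 1 + cl P (a + 1) b := by
        rw [← h2]; push_cast
        linarith
      have h5 : ((Finset.Ico a b).filter (fun n => ∀ H : ℕ, 1 ≤ H →
          H ≤ K → c * H ≤ cl P n (n + H))).card = ((Finset.Ico (a + 1) b).filter (fun n => ∀ H : ℕ,
          1 ≤ H → H ≤ K → c * H ≤ cl P n (n + H))).card + 1 := by
        have h6 : Finset.Ico a b = insert a (Finset.Ico (a + 1) b) :=
          (Finset.insert_Ico_add_one_left_eq_Ico hlt).symm
        rw [h6, Finset.filter_insert, if_pos hgood, Finset.card_insert_of_notMem]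
        simp
      rw [h5]
      push_cast at h1 ⊢
      nlinarith
    · push Not at hgood
      obtain ⟨H, hH1, hHK, hH⟩ := hgood
      have hHKr : (H : ℝ) ≤ K := by exact_mod_cast hHK
      by_cases hend : b ≤ a + H
      · have h1 : (cl P a b : ℝ) ≤ cl P a (a + H) := by exact_mod_cast cl_mono hend
        have h2 : 0 ≤ (((Finset.Ico a b).filter (fun n => ∀ H : ℕ, 1 ≤ H →
          H ≤ K → c * H ≤ cl P n (n + H))).card : ℝ) := Nat.cast_nonneg _
        have h3 : c * H ≤ c * ((b : ℝ) - a + K) := by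
          apply mul_le_mul_of_nonneg_left _ hc.le
          linarith
        linarith
      · push Not at hend
        have h1 := ih (b - (a + H)) (by omega) (a + H) b rfl hend.le
        have h2 := cl_add (P := P) (a := a) (b := a + H) (c := b) (by omega) hend.le
        have h3 : (cl P a b : ℝ) = cl P a (a + H) + cl P (a + H) b := by exact_mod_cast h2.symm
        have h4 : ((Finset.Ico (a + H) b).filter (fun n => ∀ H : ℕ, 1 ≤ H →
          H ≤ K → c * H ≤ cl P n (n + H))).card ≤ ((Finset.Ico a b).filter (fun n => ∀ H : ℕ,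
          1 ≤ H → H ≤ K → c * H ≤ cl P n (n + H))).card := by
          apply Finset.card_le_card
          apply Finset.filter_subset_filter
          apply Finset.Ico_subset_Ico_left
          omega
        have h5 : (((Finset.Ico (a + H) b).filter (fun n => ∀ H : ℕ, 1 ≤ H →
          H ≤ K → c * H ≤ cl P n (n + H))).card : ℝ) ≤ (((Finset.Ico a b).filter (fun n => ∀ H : ℕ,
          1 ≤ H → H ≤ K → c * H ≤ cl P n (n + H))).card : ℝ) := by exact_mod_cast h4
        rw [h3]
        push_cast at h1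
        nlinarith

open Classical in
/-- Greedy covering from the right: many right endpoints of dense windows. -/
lemma lower_left (c : ℝ) (hc : 0 < c) (K : ℕ) (d : ℕ) : ∀ a b : ℕ, b - a = d → a ≤ b →
    (cl P a b : ℝ) ≤ c * ((b : ℝ) - a + K) + (((Finset.Ico a b).filter (fun n => ∀ H : ℕ, 1 ≤ H →
      H ≤ K → H ≤ n + 1 → c * H ≤ cl P (n + 1 - H) (n + 1))).card : ℝ) := by
  induction d using Nat.strong_induction_on with
  | _ d ih =>
    intro a b hd hab
    have hK0 : (0 : ℝ) ≤ K := Nat.cast_nonneg K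
    rcases Nat.eq_or_lt_of_le hab with rfl | hlt
    · simp only [cl, Finset.Ico_self, Finset.filter_empty, Finset.card_empty, Nat.cast_zero,
        sub_self, zero_add, add_zero]
      positivity
    obtain ⟨b', rfl⟩ : ∃ b', b = b' + 1 := ⟨b - 1, by omega⟩
    have hltr : (a : ℝ) ≤ b' := by exact_mod_cast (by omega : a ≤ b')
    by_cases hgood : ∀ H : ℕ, 1 ≤ H → H ≤ K → H ≤ b' + 1 → c * H ≤ cl P (b' + 1 - H) (b' + 1)
    · have h1 := ih (b' - a) (by omega) a b' rfl (by omega)
      have h2 := cl_add (P := P) (a := a) (b := b') (c := b' + 1) (by omega) (by omega)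
      have h3 := cl_le_one (P := P) b'
      have h4 : (cl P a (b' + 1) : ℝ) ≤ 1 + cl P a b' := by
        rw [← h2]; push_cast
        linarith
      have h5 : ((Finset.Ico a (b' + 1)).filter (fun n => ∀ H : ℕ, 1 ≤ H →
          H ≤ K → H ≤ n + 1 → c * H ≤ cl P (n + 1 - H) (n + 1))).card =
          ((Finset.Ico a b').filter (fun n => ∀ H : ℕ,
          1 ≤ H → H ≤ K → H ≤ n + 1 → c * H ≤ cl P (n + 1 - H) (n + 1))).card + 1 := by
        have h6 : Finset.Ico a (b' + 1) = insert b' (Finset.Ico a b') := by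
          ext x
          rw [Finset.mem_insert, Finset.mem_Ico, Finset.mem_Ico]
          omega
        rw [h6, Finset.filter_insert, if_pos hgood, Finset.card_insert_of_notMem]
        simp
      rw [h5]
      push_cast at h1 ⊢
      nlinarith
    · push Not at hgood
      obtain ⟨H, hH1, hHK, hHb, hH⟩ := hgood
      have hHKr : (H : ℝ) ≤ K := by exact_mod_cast hHK
      by_cases hend : b' + 1 ≤ a + H
      · have h1 : (cl P a (b' + 1) : ℝ) ≤ cl P (b' + 1 - H) (b' + 1) := by
          exact_mod_cast cl_anti (by omega)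
        have h2 : 0 ≤ (((Finset.Ico a (b' + 1)).filter (fun n => ∀ H : ℕ, 1 ≤ H →
          H ≤ K → H ≤ n + 1 → c * H ≤ cl P (n + 1 - H) (n + 1))).card : ℝ) := Nat.cast_nonneg _
        have h3 : c * H ≤ c * (((b' + 1 : ℕ) : ℝ) - a + K) := by
          apply mul_le_mul_of_nonneg_left _ hc.le
          push_cast
          linarith
        linarith
      · push Not at hend
        have h1 := ih (b' + 1 - H - a) (by omega) a (b' + 1 - H) rfl (by omega)
        have h2 := cl_add (P := P) (a := a) (b := b' + 1 - H) (c := b' + 1) (by omega) (by omega)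
        have h3 : (cl P a (b' + 1) : ℝ) = cl P a (b' + 1 - H) + cl P (b' + 1 - H) (b' + 1) := by
          exact_mod_cast h2.symm
        have h4 : ((Finset.Ico a (b' + 1 - H)).filter (fun n => ∀ H : ℕ, 1 ≤ H →
          H ≤ K → H ≤ n + 1 → c * H ≤ cl P (n + 1 - H) (n + 1))).card ≤
          ((Finset.Ico a (b' + 1)).filter (fun n => ∀ H : ℕ, 1 ≤ H →
          H ≤ K → H ≤ n + 1 → c * H ≤ cl P (n + 1 - H) (n + 1))).card := by
          apply Finset.card_le_card
          apply Finset.filter_subset_filter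
          apply Finset.Ico_subset_Ico_right
          omega
        have h5 : (((Finset.Ico a (b' + 1 - H)).filter (fun n => ∀ H : ℕ, 1 ≤ H →
          H ≤ K → H ≤ n + 1 → c * H ≤ cl P (n + 1 - H) (n + 1))).card : ℝ) ≤
          (((Finset.Ico a (b' + 1)).filter (fun n => ∀ H : ℕ,
          1 ≤ H → H ≤ K → H ≤ n + 1 → c * H ≤ cl P (n + 1 - H) (n + 1))).card : ℝ) := by
          exact_mod_cast h4
        have h6 : ((b' + 1 - H : ℕ) : ℝ) = (b' : ℝ) + 1 - H := by
          rw [Nat.cast_sub (by omega)]; push_cast; ring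
        rw [h3]
        rw [h6] at h1
        push_cast
        nlinarith

open Classical in
/-- right maximal inequality -/
lemma max_right (τ : ℝ) (hτ : 0 < τ) (W d : ℕ) : ∀ a : ℕ, W - a = d → a ≤ W →
    τ * (((Finset.Ico a W).filter (fun n => ∃ H : ℕ, 1 ≤ H ∧ n + H ≤ W ∧
      τ * H < (co P n (n + H) : ℝ))).card : ℝ) ≤ co P a W := by
  induction d using Nat.strong_induction_on with
  | _ d ih =>
    intro a hd haW
    rcases Nat.eq_or_lt_of_le haW with rfl | hlt
    · simp
    by_cases hbad : ∃ H : ℕ, 1 ≤ H ∧ a + H ≤ W ∧ τ * H < (co P a (a + H) : ℝ)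
    · obtain ⟨H, hH1, hHW, hH⟩ := hbad
      have h1 := ih (W - (a + H)) (by omega) (a + H) rfl hHW
      have h2 : (Finset.Ico a W).filter (fun n => ∃ H : ℕ, 1 ≤ H ∧ n + H ≤ W ∧
          τ * H < (co P n (n + H) : ℝ)) ⊆ Finset.Ico a (a + H) ∪
          (Finset.Ico (a + H) W).filter (fun n => ∃ H : ℕ, 1 ≤ H ∧ n + H ≤ W ∧
          τ * H < (co P n (n + H) : ℝ)) := by
        intro n hn
        rw [Finset.mem_filter, Finset.mem_Ico] at hn
        rw [Finset.mem_union, Finset.mem_Ico, Finset.mem_filter, Finset.mem_Ico]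
        rcases Nat.lt_or_ge n (a + H) with h | h
        · exact Or.inl ⟨hn.1.1, h⟩
        · exact Or.inr ⟨⟨h, hn.1.2⟩, hn.2⟩
      have h3 := (Finset.card_le_card h2).trans (Finset.card_union_le _ _)
      rw [Nat.card_Ico, Nat.add_sub_cancel_left] at h3
      have h4 : ((((Finset.Ico a W).filter (fun n => ∃ H : ℕ, 1 ≤ H ∧ n + H ≤ W ∧
          τ * H < (co P n (n + H) : ℝ))).card : ℕ) : ℝ) ≤ H +
          (((Finset.Ico (a + H) W).filter (fun n => ∃ H : ℕ, 1 ≤ H ∧ n + H ≤ W ∧
          τ * H < (co P n (n + H) : ℝ))).card : ℝ) := by exact_mod_cast h3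
      have h5 : (co P a (a + H) : ℝ) + co P (a + H) W = co P a W := by
        exact_mod_cast co_add (by omega) hHW
      have h6 := mul_le_mul_of_nonneg_left h4 hτ.le
      rw [mul_add] at h6
      linarith
    · have h1 := ih (W - (a + 1)) (by omega) (a + 1) rfl hlt
      have h2 : (Finset.Ico a W).filter (fun n => ∃ H : ℕ, 1 ≤ H ∧ n + H ≤ W ∧
          τ * H < (co P n (n + H) : ℝ)) ⊆
          (Finset.Ico (a + 1) W).filter (fun n => ∃ H : ℕ, 1 ≤ H ∧ n + H ≤ W ∧
          τ * H < (co P n (n + H) : ℝ)) := by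
        intro n hn
        rw [Finset.mem_filter, Finset.mem_Ico] at hn ⊢
        refine ⟨⟨?_, hn.1.2⟩, hn.2⟩
        rcases Nat.eq_or_lt_of_le hn.1.1 with h | h
        · subst h
          exact absurd hn.2 hbad
        · exact h
      have h3 : ((((Finset.Ico a W).filter (fun n => ∃ H : ℕ, 1 ≤ H ∧ n + H ≤ W ∧
          τ * H < (co P n (n + H) : ℝ))).card : ℕ) : ℝ) ≤
          (((Finset.Ico (a + 1) W).filter (fun n => ∃ H : ℕ, 1 ≤ H ∧ n + H ≤ W ∧
          τ * H < (co P n (n + H) : ℝ))).card : ℝ) := by exact_mod_cast Finset.card_le_card h2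
      have h4 : (co P (a + 1) W : ℝ) ≤ co P a W := by exact_mod_cast co_anti (by omega)
      have h6 := mul_le_mul_of_nonneg_left h3 hτ.le
      linarith

open Classical in
/-- left maximal inequality -/
lemma max_left (τ : ℝ) (hτ : 0 < τ) (A d : ℕ) : ∀ b : ℕ, b - A = d → A ≤ b →
    τ * (((Finset.Ioc A b).filter (fun n => ∃ H : ℕ, 1 ≤ H ∧ A + H ≤ n ∧
      τ * H < (co P (n - H) n : ℝ))).card : ℝ) ≤ co P A b := by
  induction d using Nat.strong_induction_on with
  | _ d ih =>
    intro b hd hAb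
    rcases Nat.eq_or_lt_of_le hAb with rfl | hlt
    · simp
    obtain ⟨b', rfl⟩ : ∃ b', b = b' + 1 := ⟨b - 1, by omega⟩
    by_cases hbad : ∃ H : ℕ, 1 ≤ H ∧ A + H ≤ b' + 1 ∧ τ * H < (co P (b' + 1 - H) (b' + 1) : ℝ)
    · obtain ⟨H, hH1, hHW, hH⟩ := hbad
      have h1 := ih (b' + 1 - H - A) (by omega) (b' + 1 - H) rfl (by omega)
      have h2 : (Finset.Ioc A (b' + 1)).filter (fun n => ∃ H : ℕ, 1 ≤ H ∧ A + H ≤ n ∧
          τ * H < (co P (n - H) n : ℝ)) ⊆ Finset.Ioc (b' + 1 - H) (b' + 1) ∪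
          (Finset.Ioc A (b' + 1 - H)).filter (fun n => ∃ H : ℕ, 1 ≤ H ∧ A + H ≤ n ∧
          τ * H < (co P (n - H) n : ℝ)) := by
        intro n hn
        rw [Finset.mem_filter, Finset.mem_Ioc] at hn
        rw [Finset.mem_union, Finset.mem_Ioc, Finset.mem_filter, Finset.mem_Ioc]
        rcases Nat.lt_or_ge (b' + 1 - H) n with h | h
        · exact Or.inl ⟨h, hn.1.2⟩
        · exact Or.inr ⟨⟨hn.1.1, h⟩, hn.2⟩
      have h3 := (Finset.card_le_card h2).trans (Finset.card_union_le _ _)
      have h3' : (Finset.Ioc (b' + 1 - H) (b' + 1)).card = H := by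
        rw [Nat.card_Ioc]; omega
      rw [h3'] at h3
      have h4 : ((((Finset.Ioc A (b' + 1)).filter (fun n => ∃ H : ℕ, 1 ≤ H ∧ A + H ≤ n ∧
          τ * H < (co P (n - H) n : ℝ))).card : ℕ) : ℝ) ≤ H +
          (((Finset.Ioc A (b' + 1 - H)).filter (fun n => ∃ H : ℕ, 1 ≤ H ∧ A + H ≤ n ∧
          τ * H < (co P (n - H) n : ℝ))).card : ℝ) := by exact_mod_cast h3
      have h5 : (co P A (b' + 1 - H) : ℝ) + co P (b' + 1 - H) (b' + 1) = co P A (b' + 1) := by
        exact_mod_cast co_add (by omega) (by omega)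
      have h6 := mul_le_mul_of_nonneg_left h4 hτ.le
      rw [mul_add] at h6
      linarith
    · have h1 := ih (b' - A) (by omega) b' rfl (by omega)
      have h2 : (Finset.Ioc A (b' + 1)).filter (fun n => ∃ H : ℕ, 1 ≤ H ∧ A + H ≤ n ∧
          τ * H < (co P (n - H) n : ℝ)) ⊆
          (Finset.Ioc A b').filter (fun n => ∃ H : ℕ, 1 ≤ H ∧ A + H ≤ n ∧
          τ * H < (co P (n - H) n : ℝ)) := by
        intro n hn
        rw [Finset.mem_filter, Finset.mem_Ioc] at hn ⊢
        refine ⟨⟨hn.1.1, ?_⟩, hn.2⟩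
        rcases Nat.eq_or_lt_of_le hn.1.2 with h | h
        · subst h
          exact absurd hn.2 hbad
        · omega
      have h3 : ((((Finset.Ioc A (b' + 1)).filter (fun n => ∃ H : ℕ, 1 ≤ H ∧ A + H ≤ n ∧
          τ * H < (co P (n - H) n : ℝ))).card : ℕ) : ℝ) ≤
          (((Finset.Ioc A b').filter (fun n => ∃ H : ℕ, 1 ≤ H ∧ A + H ≤ n ∧
          τ * H < (co P (n - H) n : ℝ))).card : ℝ) := by exact_mod_cast Finset.card_le_card h2
      have h4 : (co P A b' : ℝ) ≤ co P A (b' + 1) := by exact_mod_cast co_mono (by omega)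
      have h6 := mul_le_mul_of_nonneg_left h3 hτ.le
      linarith

open Classical in
/-- Points just to the left of a set of elements of `P`: second moment method. -/
lemma moment_method (G : Finset ℕ) (X N T : ℕ) (hG : ∀ g ∈ G, X + T ≤ g ∧ g < N ∧ P g)
    (B : ℝ) (hB : 0 < B)
    (hmom : ∑ n ∈ Finset.Ico X N, ((co P n (n + T) : ℝ)) ^ 2 ≤ B) :
    ((T : ℝ) * G.card) ^ 2 / B ≤
      (((Finset.Ico X N).filter (fun m => ∃ g ∈ G, m < g ∧ g ≤ m + T)).card : ℝ) := by
  set A := (Finset.Ico X N).filter (fun m => ∃ g ∈ G, m < g ∧ g ≤ m + T) with hA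
  let r : ℕ → ℕ := fun m => (G.filter (fun g => m < g ∧ g ≤ m + T)).card
  have h1 : T * G.card ≤ ∑ m ∈ A, r m := by
    have h2 : ∑ m ∈ Finset.Ico X N, r m = ∑ m ∈ A, r m := by
      rw [hA, Finset.sum_filter]
      apply Finset.sum_congr rfl
      intro m _
      split_ifs with h
      · rfl
      · simp only [r]
        rw [Finset.card_eq_zero, Finset.filter_eq_empty_iff]
        intro g hg hh
        exact h ⟨g, hg, hh⟩
    rw [← h2]
    simp only [r, Finset.card_filter]
    rw [Finset.sum_comm]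
    have h3 : ∀ g ∈ G, T ≤ ∑ m ∈ Finset.Ico X N, if m < g ∧ g ≤ m + T then 1 else 0 := by
      intro g hg
      obtain ⟨hg1, hg2, -⟩ := hG g hg
      rw [← Finset.card_filter]
      have h4 : Finset.Ico (g - T) g ⊆ (Finset.Ico X N).filter (fun m => m < g ∧ g ≤ m + T) := by
        intro m hm
        rw [Finset.mem_Ico] at hm
        rw [Finset.mem_filter, Finset.mem_Ico]
        omega
      have h5 := Finset.card_le_card h4
      rw [Nat.card_Ico] at h5
      omega
    calc T * G.card = ∑ _g ∈ G, T := by rw [Finset.sum_const, smul_eq_mul, mul_comm]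
      _ ≤ _ := Finset.sum_le_sum h3
  have h1r : (T : ℝ) * G.card ≤ ∑ m ∈ A, (r m : ℝ) := by exact_mod_cast h1
  have h2 : ∑ m ∈ A, (r m : ℝ) ^ 2 ≤ B := by
    refine le_trans ?_ hmom
    have h3 : A ⊆ Finset.Ico X N := Finset.filter_subset _ _
    refine (Finset.sum_le_sum (fun m _ => ?_)).trans
      (Finset.sum_le_sum_of_subset_of_nonneg h3 (fun _ _ _ => by positivity))
    have h4 : r m ≤ co P m (m + T) := by
      simp only [r, co]
      apply Finset.card_le_card
      intro g hg
      rw [Finset.mem_filter] at hg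
      rw [Finset.mem_filter, Finset.mem_Ioc]
      exact ⟨hg.2, (hG g hg.1).2.2⟩
    have h5 : (r m : ℝ) ≤ co P m (m + T) := by exact_mod_cast h4
    gcongr
  have h3 : (∑ m ∈ A, (r m : ℝ)) ^ 2 ≤ (A.card : ℝ) * ∑ m ∈ A, (r m : ℝ) ^ 2 :=
    sq_sum_le_card_mul_sum_sq
  rw [div_le_iff₀ hB]
  calc ((T : ℝ) * G.card) ^ 2 ≤ (∑ m ∈ A, (r m : ℝ)) ^ 2 := by gcongr
    _ ≤ (A.card : ℝ) * ∑ m ∈ A, (r m : ℝ) ^ 2 := h3
    _ ≤ (A.card : ℝ) * B := by gcongr

/-- pairs of elements at distance less than `T` -/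
lemma close_pairs (A Z T : ℕ) :
    ((((Finset.Ioc A (A + Z)).filter P) ×ˢ ((Finset.Ioc A (A + Z)).filter P)).filter
      (fun x => x.1 < x.2 + T ∧ x.2 < x.1 + T)).card ≤
      co P A (A + Z) + 2 * ∑ h ∈ Finset.Icc 1 T,
        ((Finset.Ioc A (A + Z)).filter (fun n => P n ∧ P (n + h))).card := by
  classical
  set PA := (Finset.Ioc A (A + Z)).filter P with hPA
  have mem_PA : ∀ {p : ℕ}, p ∈ PA ↔ P p ∧ A < p ∧ p ≤ A + Z := by
    intro p
    rw [hPA, Finset.mem_filter, Finset.mem_Ioc]
    constructor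
    · rintro ⟨⟨h0, h1⟩, h2⟩; exact ⟨h2, h0, h1⟩
    · rintro ⟨h1, h2, h3⟩; exact ⟨⟨h2, h3⟩, h1⟩
  set D := PA.image (fun p => (p, p)) with hD
  set U := (Finset.Icc 1 T).biUnion (fun h =>
    ((Finset.Ioc A (A + Z)).filter (fun n => P n ∧ P (n + h))).image
      (fun p => (p, p + h))) with hU
  set V := (Finset.Icc 1 T).biUnion (fun h =>
    ((Finset.Ioc A (A + Z)).filter (fun n => P n ∧ P (n + h))).image
      (fun p => (p + h, p))) with hV
  have hsub : (PA ×ˢ PA).filter (fun x => x.1 < x.2 + T ∧ x.2 < x.1 + T) ⊆ D ∪ (U ∪ V) := by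
    rintro ⟨p, q⟩ hx
    rw [Finset.mem_filter, Finset.mem_product, mem_PA, mem_PA] at hx
    obtain ⟨⟨⟨hp, hpA, hpZ⟩, hq, hqA, hqZ⟩, h1, h2⟩ := hx
    simp only at hp hpA hpZ hq hqA hqZ h1 h2
    rw [Finset.mem_union, Finset.mem_union]
    rcases lt_trichotomy p q with h | h | h
    · right; left
      rw [hU, Finset.mem_biUnion]
      refine ⟨q - p, Finset.mem_Icc.mpr ⟨by omega, by omega⟩, ?_⟩
      rw [Finset.mem_image]
      have h9 : p + (q - p) = q := by omega
      refine ⟨p, ?_, ?_⟩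
      · rw [Finset.mem_filter, Finset.mem_Ioc, h9]
        exact ⟨⟨hpA, hpZ⟩, hp, hq⟩
      · rw [h9]
    · left
      rw [hD, Finset.mem_image]
      exact ⟨p, mem_PA.mpr ⟨hp, hpA, hpZ⟩, by rw [h]⟩
    · right; right
      rw [hV, Finset.mem_biUnion]
      refine ⟨p - q, Finset.mem_Icc.mpr ⟨by omega, by omega⟩, ?_⟩
      rw [Finset.mem_image]
      have h9 : q + (p - q) = p := by omega
      refine ⟨q, ?_, ?_⟩
      · rw [Finset.mem_filter, Finset.mem_Ioc, h9]
        exact ⟨⟨hqA, hqZ⟩, hq, hp⟩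
      · rw [h9]
  have hDc : D.card ≤ co P A (A + Z) := Finset.card_image_le
  have hUc : U.card ≤ ∑ h ∈ Finset.Icc 1 T,
        ((Finset.Ioc A (A + Z)).filter (fun n => P n ∧ P (n + h))).card :=
    Finset.card_biUnion_le.trans (Finset.sum_le_sum fun h _ => Finset.card_image_le)
  have hVc : V.card ≤ ∑ h ∈ Finset.Icc 1 T,
        ((Finset.Ioc A (A + Z)).filter (fun n => P n ∧ P (n + h))).card :=
    Finset.card_biUnion_le.trans (Finset.sum_le_sum fun h _ => Finset.card_image_le)
  have h1 := Finset.card_le_card hsub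
  have h2 := Finset.card_union_le D (U ∪ V)
  have h3 := Finset.card_union_le U V
  omega

/-- second moment in windows -/
lemma second_moment (A U T : ℕ) :
    ∑ n ∈ Finset.Ico A (A + U), (co P n (n + T)) ^ 2 ≤
      T * (co P A (A + (U + T)) + 2 * ∑ h ∈ Finset.Icc 1 T,
        ((Finset.Ioc A (A + (U + T))).filter (fun n => P n ∧ P (n + h))).card) := by
  classical
  set Z := U + T with hZ
  set Q := (((Finset.Ioc A (A + Z)).filter P) ×ˢ ((Finset.Ioc A (A + Z)).filter P)).filter
    (fun x => x.1 < x.2 + T ∧ x.2 < x.1 + T) with hQ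
  have h1 : ∀ n ∈ Finset.Ico A (A + U), (co P n (n + T)) ^ 2 =
      (Q.filter (fun x => (n < x.1 ∧ x.1 ≤ n + T) ∧ (n < x.2 ∧ x.2 ≤ n + T))).card := by
    intro n hn
    rw [Finset.mem_Ico] at hn
    rw [sq, co, ← Finset.card_product]
    congr 1
    ext ⟨p, q⟩
    rw [Finset.mem_product, Finset.mem_filter, Finset.mem_filter, Finset.mem_Ioc, Finset.mem_Ioc,
      Finset.mem_filter, hQ, Finset.mem_filter, Finset.mem_product, Finset.mem_filter,
      Finset.mem_filter, Finset.mem_Ioc, Finset.mem_Ioc]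
    constructor
    · rintro ⟨⟨h1, h2⟩, h3, h4⟩
      simp only at h1 h2 h3 h4 ⊢
      exact ⟨⟨⟨⟨⟨by omega, by omega⟩, h2⟩, ⟨by omega, by omega⟩, h4⟩, by omega, by omega⟩, h1, h3⟩
    · rintro ⟨⟨⟨⟨_, h1⟩, _, h2⟩, _⟩, h3, h4⟩
      exact ⟨⟨h3, h1⟩, h4, h2⟩
  rw [Finset.sum_congr rfl h1]
  have h2 : ∀ x ∈ Q, (∑ n ∈ Finset.Ico A (A + U),
      if (n < x.1 ∧ x.1 ≤ n + T) ∧ (n < x.2 ∧ x.2 ≤ n + T) then 1 else 0) ≤ T := by
    intro x _
    rw [← Finset.card_filter]
    have : (Finset.Ico A (A + U)).filter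
        (fun n => (n < x.1 ∧ x.1 ≤ n + T) ∧ (n < x.2 ∧ x.2 ≤ n + T)) ⊆
        Finset.Ico (x.1 - T) x.1 := by
      intro n hn
      rw [Finset.mem_filter] at hn
      rw [Finset.mem_Ico]
      omega
    refine (Finset.card_le_card this).trans ?_
    rw [Nat.card_Ico]
    omega
  have h3 : ∑ n ∈ Finset.Ico A (A + U),
      (Q.filter (fun x => (n < x.1 ∧ x.1 ≤ n + T) ∧ (n < x.2 ∧ x.2 ≤ n + T))).card ≤ T * Q.card := by
    simp only [Finset.card_filter]
    rw [Finset.sum_comm]
    refine (Finset.sum_le_sum h2).trans ?_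
    rw [Finset.sum_const, smul_eq_mul, mul_comm]
  exact h3.trans (Nat.mul_le_mul_left _ (close_pairs A Z T))

end Gen

open Classical in
/-- **Regular points of a set**, abstract form. `P` is contained in `P'`; lower bounds for `P`, upper
bounds for `P'`. -/
theorem regular_abs (cS C1 C2 : ℝ) (hcS : 0 < cS) (hC1 : 0 < C1) (hC2 : 0 < C2) :
    ∃ c₁ c₂ K κ : ℝ, 0 < c₁ ∧ 0 < c₂ ∧ 1 ≤ K ∧ 0 < κ ∧ ∀ (P P' : ℕ → Prop) (X : ℕ) (L : ℝ),
      2 ≤ L → K * L ^ 2 ≤ cS * X → (∀ n, P n → P' n) →
      (co P' 0 (4 * X) : ℝ) ≤ C1 * X / L → cS * X / L ≤ (co P X (2 * X) : ℝ) →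
      ∑ n ∈ Finset.Ico X (2 * X + 1), ((co P' n (n + ⌊L⌋₊) : ℝ)) ^ 2 ≤ C2 * X →
      κ * X ≤ (((Finset.Ioc X (2 * X)).filter (fun n => ∀ a b : ℕ, a ≤ n → n ≤ b →
        K * L ≤ (b : ℝ) - a → (b : ℝ) - a ≤ n →
          c₁ * ((b : ℝ) - a) / L ≤ co P a b ∧ (co P' a b : ℝ) ≤ c₂ * ((b : ℝ) - a) / L)).card : ℝ) := by
  set κ : ℝ := cS ^ 2 / (256 * C2) with hκ
  have hκ0 : 0 < κ := by positivity
  set lam : ℝ := 4 * C1 / κ with hlam
  have hlam0 : 0 < lam := by positivity
  set K : ℝ := 16 + 160 * lam / cS + 16 * (C1 + 1) with hK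
  have hKpos : 0 ≤ 160 * lam / cS := by positivity
  have hK16 : 16 ≤ K := by rw [hK]; nlinarith
  refine ⟨cS / 160, lam, K, κ, by positivity, hlam0, by linarith, hκ0, ?_⟩
  intro P P' X L hL2 hKX2 hPP h1 h2 h3
  have hL0 : 0 < L := by linarith
  have hKX : K * L ≤ cS * X := by
    refine le_trans ?_ hKX2
    have : L ≤ L ^ 2 := by nlinarith
    gcongr
  have hcX : 0 < cS * X := by nlinarith
  have hXpos : (0 : ℝ) < X := by
    rcases (Nat.cast_nonneg X : (0 : ℝ) ≤ X).lt_or_eq with h | h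
    · exact h
    · rw [← h, mul_zero] at hcX; exact absurd hcX (lt_irrefl _)
  -- cS ≤ C1
  have hcc : cS * X / L ≤ C1 * X / L := by
    refine h2.trans (le_trans ?_ h1)
    have e1 : co P X (2 * X) ≤ co P' X (2 * X) := by
      unfold co
      apply Finset.card_le_card
      intro n hn
      rw [Finset.mem_filter] at hn ⊢
      exact ⟨hn.1, hPP n hn.2⟩
    have e2 : co P' X (2 * X) ≤ co P' 0 (4 * X) :=
      (co_mono (by omega)).trans (co_anti (Nat.zero_le _))
    exact_mod_cast e1.trans e2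
  have hcSC : cS ≤ C1 := by
    have := (div_le_div_iff_of_pos_right hL0).1 hcc
    exact le_of_mul_le_mul_right this hXpos
  have hKLX : 16 * L ≤ X := by
    -- K * L ≤ cS * X ≤ C1 * X, K ≥ 16 * C1
    have a1 : 16 * (C1 + 1) * L ≤ C1 * X := by
      have : 16 * (C1 + 1) ≤ K := by rw [hK]; linarith
      calc 16 * (C1 + 1) * L ≤ K * L := by gcongr
        _ ≤ cS * X := hKX
        _ ≤ C1 * X := by gcongr
    have a2 : C1 * (16 * L) ≤ C1 * X := by nlinarith
    exact le_of_mul_le_mul_left a2 hC1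
  set T : ℕ := ⌊L⌋₊ with hT
  have hT1 : (T : ℝ) ≤ L := Nat.floor_le hL0.le
  have hT2 : L / 2 ≤ T := by
    have := Nat.lt_floor_add_one L
    rw [← hT] at this
    linarith
  have hTpos : 1 ≤ T := by
    have : (1 : ℝ) ≤ T := by linarith
    exact_mod_cast this
  have hTX : 16 * T ≤ X := by
    have : (16 : ℝ) * T ≤ X := by linarith
    exact_mod_cast this
  set c : ℝ := cS / (20 * L) with hc
  have hc0 : 0 < c := by positivity
  -- good points
  set S := (Finset.Ico (X + 1) (2 * X + 1)).filter P with hS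
  set RG := (Finset.Ico (X + 1) (2 * X + 1)).filter (fun n => ∀ H : ℕ, 1 ≤ H →
      H ≤ 4 * X → c * H ≤ cl P n (n + H)) with hRG
  set LG := (Finset.Ico (X + 1) (2 * X + 1)).filter (fun n => ∀ H : ℕ, 1 ≤ H →
      H ≤ 4 * X → H ≤ n + 1 → c * H ≤ cl P (n + 1 - H) (n + 1)) with hLG
  have hRb := lower_right (P := P) c hc0 (4 * X) X (X + 1) (2 * X + 1) (by omega) (by omega)
  have hLb := lower_left (P := P) c hc0 (4 * X) X (X + 1) (2 * X + 1) (by omega) (by omega)
  rw [← hRG] at hRb
  rw [← hLG] at hLb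
  have hlen : ((2 * X + 1 : ℕ) : ℝ) - ((X + 1 : ℕ) : ℝ) + ((4 * X : ℕ) : ℝ) = 5 * X := by
    push_cast; ring
  rw [hlen] at hRb hLb
  have hSc : (S.card : ℝ) = cl P (X + 1) (2 * X + 1) := rfl
  have hSlow : cS * X / L ≤ S.card := by
    rw [hSc, cl_succ]; exact h2
  have hcY : c * (5 * X) = cS * X / L / 4 := by rw [hc]; field_simp; norm_num
  rw [hcY, ← hSc] at hRb hLb
  have hRGS : RG ⊆ S := by
    intro n hn
    rw [hRG, Finset.mem_filter] at hn
    rw [hS, Finset.mem_filter]
    exact ⟨hn.1, mem_of_cl hc0 (hn.2 1 le_rfl (by omega))⟩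
  have hLGS : LG ⊆ S := by
    intro n hn
    rw [hLG, Finset.mem_filter] at hn
    rw [hS, Finset.mem_filter]
    refine ⟨hn.1, mem_of_cl hc0 ?_⟩
    have := hn.2 1 le_rfl (by omega) (by omega)
    rwa [Nat.add_sub_cancel] at this
  have hGcard : cS * X / L / 2 ≤ (RG ∩ LG).card := by
    have h1 := Finset.card_union_add_card_inter RG LG
    have h2 : (RG ∪ LG).card ≤ S.card := Finset.card_le_card (Finset.union_subset hRGS hLGS)
    have h3 : ((RG ∪ LG).card : ℝ) + (RG ∩ LG).card = RG.card + LG.card := by exact_mod_cast h1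
    have h4 : ((RG ∪ LG).card : ℝ) ≤ S.card := by exact_mod_cast h2
    linarith
  set G := (RG ∩ LG).filter (fun g => X + 1 + T ≤ g) with hG
  have hGc : cS * X / L / 4 ≤ G.card := by
    have e1 : (RG ∩ LG).card ≤ G.card + (Finset.Ico (X + 1) (X + 1 + T)).card := by
      rw [hG]
      have : RG ∩ LG ⊆ (RG ∩ LG).filter (fun g => X + 1 + T ≤ g) ∪ Finset.Ico (X + 1) (X + 1 + T) := by
        intro g hg
        rw [Finset.mem_union, Finset.mem_filter, Finset.mem_Ico]
        rcases Nat.lt_or_ge g (X + 1 + T) with h | h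
        · right
          have := Finset.mem_inter.1 hg
          rw [hRG, Finset.mem_filter, Finset.mem_Ico] at this
          exact ⟨this.1.1.1, h⟩
        · exact Or.inl ⟨hg, h⟩
      exact (Finset.card_le_card this).trans (Finset.card_union_le _ _)
    rw [Nat.card_Ico, Nat.add_sub_cancel_left] at e1
    have e2 : ((RG ∩ LG).card : ℝ) ≤ G.card + T := by exact_mod_cast e1
    have e3 : (T : ℝ) ≤ cS * X / L / 4 := by
      rw [le_div_iff₀ (by norm_num), le_div_iff₀ hL0]
      have q1 : (T : ℝ) * L ≤ L ^ 2 := by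
        rw [sq]; gcongr
      have q2 : 16 * L ^ 2 ≤ K * L ^ 2 := by gcongr
      have q3 : 0 ≤ L ^ 2 := sq_nonneg L
      linarith
    linarith
  -- points close to good points
  set A0 := (Finset.Ico (X + 1) (2 * X + 1)).filter (fun m => ∃ g ∈ G, m < g ∧ g ≤ m + T) with hA0
  have hmomt : ∑ n ∈ Finset.Ico (X + 1) (2 * X + 1), ((co P' n (n + T) : ℝ)) ^ 2 ≤ C2 * X := by
    refine le_trans ?_ h3
    apply Finset.sum_le_sum_of_subset_of_nonneg
    · exact Finset.Ico_subset_Ico_left (by omega)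
    · intros; positivity
  have hGP : ∀ g ∈ G, X + 1 + T ≤ g ∧ g < 2 * X + 1 ∧ P' g := by
    intro g hg
    rw [hG, Finset.mem_filter, Finset.mem_inter] at hg
    have h5 := hRGS hg.1.1
    rw [hS, Finset.mem_filter, Finset.mem_Ico] at h5
    exact ⟨hg.2, h5.1.2, hPP g h5.2⟩
  have hA0c := moment_method (P := P') G (X + 1) (2 * X + 1) T hGP (C2 * X) (by positivity) hmomt
  rw [← hA0] at hA0c
  have hA0l : 4 * κ * X ≤ A0.card := by
    refine le_trans ?_ hA0c
    rw [le_div_iff₀ (by positivity)]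
    have e1 : cS * X / 8 ≤ T * G.card := by
      calc cS * X / 8 = L / 2 * (cS * X / L / 4) := by field_simp; norm_num
        _ ≤ T * G.card := by gcongr
    calc 4 * κ * X * (C2 * X) = (cS * X / 8) ^ 2 := by rw [hκ]; field_simp; norm_num
      _ ≤ (T * G.card : ℝ) ^ 2 := by gcongr
  -- exceptional points
  set ER := (Finset.Ico 0 (4 * X)).filter (fun n => ∃ H : ℕ, 1 ≤ H ∧ n + H ≤ 4 * X ∧
      lam / L * H < (co P' n (n + H) : ℝ)) with hER
  set EL := (Finset.Ioc 0 (4 * X)).filter (fun n => ∃ H : ℕ, 1 ≤ H ∧ 0 + H ≤ n ∧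
      lam / L * H < (co P' (n - H) n : ℝ)) with hEL
  have hERb := max_right (P := P') (lam / L) (by positivity) (4 * X) (4 * X) 0 (by omega) (by omega)
  have hELb := max_left (P := P') (lam / L) (by positivity) 0 (4 * X) (4 * X) (by omega) (by omega)
  rw [← hER] at hERb
  rw [← hEL] at hELb
  have hEb : ∀ E : ℝ, lam / L * E ≤ co P' 0 (4 * X) → E ≤ κ * X / 4 := by
    intro E hE
    have e1 : lam / L * E ≤ lam / L * (κ * X / 4) := by
      refine (hE.trans h1).trans (le_of_eq ?_)
      rw [hlam]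
      field_simp
    exact le_of_mul_le_mul_left e1 (by positivity)
  have hERc := hEb _ hERb
  have hELc := hEb _ hELb
  -- the good points
  have hsub : (A0 \ ER) \ EL ⊆ (Finset.Ioc X (2 * X)).filter (fun n => ∀ a b : ℕ, a ≤ n → n ≤ b →
        K * L ≤ (b : ℝ) - a → (b : ℝ) - a ≤ n →
          cS / 160 * ((b : ℝ) - a) / L ≤ co P a b ∧
            (co P' a b : ℝ) ≤ lam * ((b : ℝ) - a) / L) := by
    intro n hn
    rw [Finset.mem_sdiff, Finset.mem_sdiff] at hn
    obtain ⟨⟨hnA, hnR⟩, hnL⟩ := hn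
    rw [hA0, Finset.mem_filter, Finset.mem_Ico] at hnA
    obtain ⟨⟨hnX, hnX2⟩, g, hgG, hng, hgT⟩ := hnA
    rw [hER, Finset.mem_filter, Finset.mem_Ico] at hnR
    rw [hEL, Finset.mem_filter, Finset.mem_Ioc] at hnL
    rw [hG, Finset.mem_filter, Finset.mem_inter, hRG, hLG, Finset.mem_filter, Finset.mem_filter] at hgG
    obtain ⟨⟨⟨hg1, hgR⟩, _, hgL⟩, _⟩ := hgG
    rw [Finset.mem_Ico] at hg1
    rw [Finset.mem_filter, Finset.mem_Ioc]
    refine ⟨⟨by omega, by omega⟩, ?_⟩
    have fR : ∀ H : ℕ, n + H ≤ 4 * X → (co P' n (n + H) : ℝ) ≤ lam / L * H := by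
      intro H hH
      rcases Nat.eq_zero_or_pos H with h0 | h0
      · subst h0
        rw [add_zero, co_self]
        simp
      · by_contra hcon
        rw [not_le] at hcon
        exact hnR ⟨⟨by omega, by omega⟩, H, h0, hH, hcon⟩
    have fL : ∀ H : ℕ, H ≤ n → (co P' (n - H) n : ℝ) ≤ lam / L * H := by
      intro H hH
      rcases Nat.eq_zero_or_pos H with h0 | h0
      · subst h0
        rw [Nat.sub_zero, co_self]
        simp
      · by_contra hcon
        rw [not_le] at hcon
        exact hnL ⟨⟨by omega, by omega⟩, H, h0, by omega, hcon⟩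
    intro a b han hnb hab hbn
    obtain ⟨u, rfl⟩ : ∃ u, n = a + u := ⟨n - a, by omega⟩
    obtain ⟨v, rfl⟩ : ∃ v, b = a + u + v := ⟨b - (a + u), by omega⟩
    have e0 : ((a + u + v : ℕ) : ℝ) - a = u + v := by push_cast; ring
    rw [e0] at hab hbn ⊢
    have huv : u + v ≤ a + u := by exact_mod_cast hbn
    have hu0 : (0 : ℝ) ≤ u := Nat.cast_nonneg u
    have hv0 : (0 : ℝ) ≤ v := Nat.cast_nonneg v
    have r1 := fR v (by omega)
    have r2 := fL u (by omega)
    rw [Nat.add_sub_cancel] at r2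
    have e1 : (co P' a (a + u) : ℝ) + co P' (a + u) (a + u + v) = co P' a (a + u + v) := by
      exact_mod_cast co_add (by omega) (by omega)
    constructor
    · rcases le_total u v with hle | hle
      · -- right side
        have hler : (u : ℝ) ≤ v := by exact_mod_cast hle
        have hvT : 8 * (T : ℝ) ≤ v := by
          have q1 : 16 * (T : ℝ) ≤ 16 * L := by linarith
          have q2 : 16 * L ≤ K * L := by gcongr
          linarith
        have hvTn : 8 * T ≤ v := by exact_mod_cast hvT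
        obtain ⟨H, hH⟩ : ∃ H, g + H = a + u + v + 1 := ⟨a + u + v + 1 - g, by omega⟩
        have h5 := hgR H (by omega) (by omega)
        rw [hH] at h5
        have h6 : (cl P g (a + u + v + 1) : ℝ) ≤ co P a (a + u + v) := by
          have : cl P g (a + u + v + 1) ≤ cl P (a + 1) (a + u + v + 1) := cl_anti (by omega)
          rw [cl_succ] at this
          exact_mod_cast this
        have h7 : (v : ℝ) / 2 ≤ H := by
          have : v ≤ 2 * H := by omega
          have : (v : ℝ) ≤ 2 * H := by exact_mod_cast this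
          linarith
        refine le_trans ?_ (h5.trans h6)
        calc cS / 160 * ((u : ℝ) + v) / L ≤ cS / 160 * (v + v) / L := by gcongr
          _ = cS / (80 * L) * v := by field_simp; ring
          _ ≤ cS / (20 * L) * (v / 2) := by
              have : 0 ≤ cS / L * v := by positivity
              have e5 : cS / (20 * L) * ((v : ℝ) / 2) - cS / (80 * L) * v = cS / L * v / 80 := by
                field_simp; ring
              linarith
          _ ≤ c * H := by rw [hc]; gcongr
      · -- left side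
        have hler : (v : ℝ) ≤ u := by exact_mod_cast hle
        have h5 := hgL (g - a) (by omega) (by omega) (by omega)
        have e2 : g + 1 - (g - a) = a + 1 := by omega
        rw [e2, cl_succ] at h5
        have h6 : co P a (a + u) + co P (a + u) g = co P a g := co_add (by omega) (by omega)
        have h7 : co P (a + u) g ≤ co P' (a + u) (a + u + T) := by
          unfold co
          apply Finset.card_le_card
          intro x hx
          rw [Finset.mem_filter, Finset.mem_Ioc] at hx ⊢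
          exact ⟨⟨hx.1.1, by omega⟩, hPP x hx.2⟩
        have h8 := fR T (by omega)
        have h9 : lam / L * (T : ℝ) ≤ lam := by
          rw [div_mul_eq_mul_div, div_le_iff₀ hL0]
          gcongr
        have h10 : (u : ℝ) ≤ ((g - a : ℕ) : ℝ) := by exact_mod_cast (by omega : u ≤ g - a)
        have h11 : c * u ≤ c * ((g - a : ℕ) : ℝ) := by gcongr
        have h12 : (co P a (a + u) : ℝ) + co P (a + u) g = co P a g := by exact_mod_cast h6
        have h13 : (co P (a + u) g : ℝ) ≤ co P' (a + u) (a + u + T) := by exact_mod_cast h7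
        have h14 : (co P a (a + u) : ℝ) ≤ co P a (a + u + v) := by
          exact_mod_cast co_mono (by omega)
        have h15 : 80 * lam / cS * L ≤ u := by
          have : 160 * lam / cS ≤ K := by rw [hK]; linarith
          have h16 : 160 * lam / cS * L ≤ K * L := by gcongr
          have h17 : 160 * lam / cS * L = 2 * (80 * lam / cS * L) := by ring
          linarith
        have h16 : 4 * lam ≤ c * u := by
          calc 4 * lam = c * (80 * lam / cS * L) := by rw [hc]; field_simp; norm_num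
            _ ≤ c * u := by gcongr
        have h17 : cS / 160 * ((u : ℝ) + v) / L ≤ c * u / 2 := by
          calc cS / 160 * ((u : ℝ) + v) / L ≤ cS / 160 * (u + u) / L := by gcongr
            _ = cS * u / (80 * L) := by field_simp; ring
            _ ≤ c * u / 2 := by
              have : 0 ≤ cS / L * u := by positivity
              have e5 : c * (u : ℝ) / 2 - cS * u / (80 * L) = cS / L * u / 80 := by
                rw [hc]; field_simp; ring
              linarith
        linarith
    · rw [← e1]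
      have : lam * ((u : ℝ) + v) / L = lam / L * u + lam / L * v := by ring
      rw [this]
      linarith
  have hc1 : (((A0 \ ER) \ EL).card : ℝ) ≤ (((Finset.Ioc X (2 * X)).filter (fun n => ∀ a b : ℕ,
        a ≤ n → n ≤ b → K * L ≤ (b : ℝ) - a → (b : ℝ) - a ≤ n →
          cS / 160 * ((b : ℝ) - a) / L ≤ co P a b ∧
            (co P' a b : ℝ) ≤ lam * ((b : ℝ) - a) / L)).card : ℝ) := by
    exact_mod_cast Finset.card_le_card hsub
  refine le_trans ?_ hc1
  have hc2 : (A0.card : ℝ) ≤ ((A0 \ ER) \ EL).card + ER.card + EL.card := by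
    have a1 := Finset.card_le_card_sdiff_add_card (s := A0) (t := ER)
    have a2 := Finset.card_le_card_sdiff_add_card (s := A0 \ ER) (t := EL)
    have : A0.card ≤ ((A0 \ ER) \ EL).card + ER.card + EL.card := by omega
    exact_mod_cast this
  have : 0 ≤ κ * X := by positivity
  linarith

end Pool.Agent.W123.RP
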