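import Pool.Agent.W123.RP.Pair
import Pool.Agent.H373R2.T7.FundC
import Pool.Agent.H305R2.MertensE

set_option autoImplicit false

/-!
# Mertens bounds and the lower bound for primes
-/

namespace Pool.Agent.W123.RP

open Finset Filter Pool.Agent.H373R2.T7

theorem Vz_bounds : ∃ c C : ℝ, 0 < c ∧ 0 < C ∧ ∀ y : ℕ, 2 ≤ y →
    c / Real.log y ≤ Vz y ∧ Vz y ≤ C / Real.log y := by
  have h := Pool.Agent.H305R2.mertens_three
  have hb := h.bddAbove_range
  have hinv := (h.inv₀ (Real.exp_ne_zero _)).bddAbove_range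
  obtain ⟨C1, hC1⟩ := hb
  obtain ⟨C2, hC2⟩ := hinv
  have key : ∀ y : ℕ, ∏ p ∈ (Finset.Icc 1 y).filter Nat.Prime, (1 - (p : ℝ)⁻¹)⁻¹ = (Vz y)⁻¹ := by
    intro y
    unfold Vz pz
    rw [← Finset.prod_inv_distrib]
    simp only [one_div]
  have hpos : ∀ y : ℕ, 0 < Vz y := by
    intro y
    apply Finset.prod_pos
    intro p hp
    have : (2 : ℝ) ≤ p := by exact_mod_cast (mem_pz.1 hp).2.two_le
    rw [sub_pos, div_lt_one (by linarith)]
    linarith
  have h1 : ∀ y : ℕ, (Vz y)⁻¹ / Real.log y ≤ max C1 1 := by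
    intro y
    have := hC1 ⟨y, rfl⟩
    simp only [key] at this
    exact this.trans (le_max_left _ _)
  have h2 : ∀ y : ℕ, ((Vz y)⁻¹ / Real.log y)⁻¹ ≤ max C2 1 := by
    intro y
    have := hC2 ⟨y, rfl⟩
    simp only [key] at this
    exact this.trans (le_max_left _ _)
  have hm1 : 0 < max C1 1 := lt_of_lt_of_le one_pos (le_max_right _ _)
  have hm2 : 0 < max C2 1 := lt_of_lt_of_le one_pos (le_max_right _ _)
  refine ⟨(max C1 1)⁻¹, max C2 1, inv_pos.2 hm1, hm2, ?_⟩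
  intro y hy
  have hlog : 0 < Real.log y := Real.log_pos (by exact_mod_cast (by omega : 1 < y))
  have hv := hpos y
  constructor
  · have := h1 y
    rw [div_le_iff₀ hlog, inv_le_comm₀ hv (by positivity)] at this
    rw [div_eq_mul_inv, ← mul_inv]
    exact this
  · have := h2 y
    rw [inv_div, div_inv_eq_mul] at this
    rw [le_div_iff₀ hlog, mul_comm]
    exact this

open Classical in
/-- primes avoiding a system of classes, lower bound -/
theorem prime_lower (QA : ℕ → ℕ → Prop) (c g : ℕ) (hc : 1 ≤ c) (hA : PerA QA c) (c0 : ℝ)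
    (hc0 : 0 < c0) (hPi : ∀ y : ℕ, 2 ≤ y →
      c0 / Real.log y ^ g ≤ ∏ p ∈ pz y, (1 - (rhoA QA p : ℝ) / (p - 1 : ℝ))) :
    ∃ K0 : ℕ, 2 ≤ K0 ∧ ∀ r : ℕ, K0 ≤ r → ∀ B : ℕ, 1 ≤ B → ∃ cS : ℝ, 0 < cS ∧ ∀ᶠ X : ℕ in atTop,
      cS * X / Real.log X ^ (g + 1) ≤ (((Finset.Ioc (B * X) (B * (2 * X))).filter (fun n => n.Prime ∧
        ∀ p ∈ pz ⌊((2 * X : ℕ) : ℝ) ^ (1 / (r : ℝ))⌋₊, ¬ QA p n)).card : ℝ) := by
  obtain ⟨K1, hK1, hfund⟩ := lam_fund c hc (1 / 10) (by norm_num)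
  obtain ⟨x0, hx0⟩ := hfund (g + 1)
  refine ⟨max K1 2, le_max_right _ _, ?_⟩
  intro r hr B hB
  have hr1 : K1 ≤ r := (le_max_left _ _).trans hr
  have hr2 : 2 ≤ r := (le_max_right _ _).trans hr
  have hrr : (2 : ℝ) ≤ r := by exact_mod_cast hr2
  have hrpos : (0 : ℝ) < r := by linarith
  refine ⟨c0 * B / 2 ^ (g + 2), by positivity, ?_⟩
  have hxt : Tendsto (fun X : ℕ => B * (2 * X)) atTop atTop :=
    tendsto_atTop_mono (fun X => by
      change X ≤ B * (2 * X)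
      nlinarith) tendsto_id
  have hXr : Tendsto (fun X : ℕ => ((2 * X : ℕ) : ℝ)) atTop atTop :=
    tendsto_natCast_atTop_atTop.comp (tendsto_atTop_mono (fun X => by
      change X ≤ 2 * X
      omega) tendsto_id)
  have hpow : Tendsto (fun X : ℕ => ((2 * X : ℕ) : ℝ) ^ (1 / (r : ℝ))) atTop atTop :=
    (tendsto_rpow_atTop (by positivity)).comp hXr
  have hev1 : ∀ᶠ x : ℕ in atTop, 40 * Real.log (x : ℝ) ^ (g + 1) ≤ c0 * √(x : ℝ) := by
    have h := ((isLittleO_log_rpow_rpow_atTop ((g + 1 : ℕ) : ℝ) (by norm_num : (0 : ℝ) < 1 / 2)).comp_tendsto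
      tendsto_natCast_atTop_atTop).bound (by positivity : (0 : ℝ) < c0 / 40)
    filter_upwards [h, eventually_ge_atTop 1] with X h2 hX1
    have hX1' : (1 : ℝ) ≤ X := by exact_mod_cast hX1
    have hlog : 0 ≤ Real.log (X : ℝ) := Real.log_nonneg hX1'
    simp only [Function.comp_def] at h2
    rw [Real.norm_of_nonneg (by positivity), Real.norm_of_nonneg (by positivity),
      Real.rpow_natCast, ← Real.sqrt_eq_rpow] at h2
    linarith
  have hev2 : ∀ᶠ x : ℕ in atTop, 40 ≤ c0 * Real.log (x : ℝ) ∧ 1 ≤ Real.log (x : ℝ) := by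
    have h : Tendsto (fun x : ℕ => Real.log (x : ℝ)) atTop atTop :=
      Real.tendsto_log_atTop.comp tendsto_natCast_atTop_atTop
    filter_upwards [h.eventually_ge_atTop (40 / c0), h.eventually_ge_atTop 1] with x hx hx1
    rw [div_le_iff₀ hc0] at hx
    exact ⟨by linarith, hx1⟩
  filter_upwards [hxt.eventually hev1, hxt.eventually hev2, hpow.eventually_ge_atTop ((x0 : ℝ) + 3),
    eventually_ge_atTop (2 * B + 2)] with X e1 e2 e3 e4
  obtain ⟨e2, e5⟩ := e2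
  set x : ℕ := B * (2 * X) with hx
  set y : ℕ := ⌊((2 * X : ℕ) : ℝ) ^ (1 / (r : ℝ))⌋₊ with hy
  have hX2 : 2 ≤ X := by omega
  have h2X : (0 : ℝ) < ((2 * X : ℕ) : ℝ) := by exact_mod_cast (by omega : 0 < 2 * X)
  have hxX : 2 * X ≤ x := by rw [hx]; nlinarith
  have hxpos : (0 : ℝ) < x := by exact_mod_cast (by omega : 0 < x)
  have hyx0 : (x0 : ℝ) + 2 ≤ y := by
    have := Nat.lt_floor_add_one (((2 * X : ℕ) : ℝ) ^ (1 / (r : ℝ)))
    rw [← hy] at this
    linarith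
  have hyx0' : x0 + 2 ≤ y := by exact_mod_cast hyx0
  have hyup : (y : ℝ) ≤ ((2 * X : ℕ) : ℝ) ^ (1 / (r : ℝ)) := Nat.floor_le (by positivity)
  have hyr : y ^ r ≤ 2 * X := by
    have : ((y ^ r : ℕ) : ℝ) ≤ ((2 * X : ℕ) : ℝ) := by
      rw [Nat.cast_pow]
      calc (y : ℝ) ^ r ≤ (((2 * X : ℕ) : ℝ) ^ (1 / (r : ℝ))) ^ r :=
            pow_le_pow_left₀ (by positivity) hyup r
        _ = ((2 * X : ℕ) : ℝ) := by
          rw [← Real.rpow_natCast, ← Real.rpow_mul h2X.le]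
          rw [one_div, inv_mul_cancel₀ hrpos.ne', Real.rpow_one]
    exact_mod_cast this
  have hyK : y ^ K1 ≤ x := (Nat.pow_le_pow_right (by omega) hr1).trans (hyr.trans hxX)
  have hyx : y ≤ x := by
    calc y = y ^ 1 := (pow_one y).symm
      _ ≤ y ^ r := Nat.pow_le_pow_right (by omega) (by omega)
      _ ≤ x := hyr.trans hxX
  set PI : ℝ := ∏ p ∈ pz y, (1 - (rhoA QA p : ℝ) / (p - 1 : ℝ)) with hPI
  have hPIlow : c0 / Real.log x ^ g ≤ PI := by
    refine le_trans ?_ (hPi y (by omega))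
    have hly : 0 < Real.log y := Real.log_pos (by exact_mod_cast (by omega : 1 < y))
    have : Real.log y ≤ Real.log x :=
      Real.log_le_log (by exact_mod_cast (by omega : 0 < y)) (by exact_mod_cast hyx)
    gcongr
  have hf2 := (abs_le.1 (hx0 x y (by omega) hyK QA hA x le_rfl)).1
  have hf1 := (abs_le.1 (hx0 x y (by omega) hyK QA hA (B * X) (by rw [hx]; nlinarith))).2
  rw [← hPI] at hf1 hf2
  have hBX : ((B * X : ℕ) : ℝ) = x / 2 := by rw [hx]; push_cast; ring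
  rw [hBX] at hf1
  set lx : ℝ := Real.log x with hlx
  -- the sums
  set Sf : ℕ → ℝ := fun Z => ∑ n ∈ (Icc 1 Z).filter (fun n : ℕ => ∀ p ∈ pz y, ¬ QA p n),
    ArithmeticFunction.vonMangoldt n with hSf
  have hdiff : Sf x - Sf (B * X) ≤ ∑ n ∈ (Ioc (B * X) x).filter (fun n => n.Prime ∧
      ∀ p ∈ pz y, ¬ QA p n), ArithmeticFunction.vonMangoldt n +
      ∑ n ∈ (Ioc 0 x).filter (fun n => ¬ n.Prime), ArithmeticFunction.vonMangoldt n := by
    have hsub : (Icc 1 x).filter (fun n : ℕ => ∀ p ∈ pz y, ¬ QA p n) ⊆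
        (Icc 1 (B * X)).filter (fun n : ℕ => ∀ p ∈ pz y, ¬ QA p n) ∪
        ((Ioc (B * X) x).filter (fun n => n.Prime ∧ ∀ p ∈ pz y, ¬ QA p n) ∪
        (Ioc 0 x).filter (fun n => ¬ n.Prime)) := by
      intro n hn
      rw [mem_filter, mem_Icc] at hn
      rw [mem_union, mem_union, mem_filter, mem_filter, mem_filter, mem_Icc, mem_Ioc, mem_Ioc]
      rcases Nat.lt_or_ge (B * X) n with h | h
      · by_cases hp : n.Prime
        · exact Or.inr (Or.inl ⟨⟨h, hn.1.2⟩, hp, hn.2⟩)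
        · exact Or.inr (Or.inr ⟨⟨by omega, hn.1.2⟩, hp⟩)
      · exact Or.inl ⟨⟨hn.1.1, h⟩, hn.2⟩
    have hΛ : ∀ n : ℕ, 0 ≤ ArithmeticFunction.vonMangoldt n :=
      fun n => ArithmeticFunction.vonMangoldt_nonneg
    have h1 : Sf x ≤ ∑ n ∈ (Icc 1 (B * X)).filter (fun n : ℕ => ∀ p ∈ pz y, ¬ QA p n) ∪
        ((Ioc (B * X) x).filter (fun n => n.Prime ∧ ∀ p ∈ pz y, ¬ QA p n) ∪
        (Ioc 0 x).filter (fun n => ¬ n.Prime)), ArithmeticFunction.vonMangoldt n :=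
      Finset.sum_le_sum_of_subset_of_nonneg hsub (fun n _ _ => hΛ n)
    have h2 : ∀ s t : Finset ℕ, ∑ n ∈ s ∪ t, ArithmeticFunction.vonMangoldt n ≤
        ∑ n ∈ s, ArithmeticFunction.vonMangoldt n + ∑ n ∈ t, ArithmeticFunction.vonMangoldt n := by
      intro s t
      have := Finset.sum_union_inter (s₁ := s) (s₂ := t) (f := fun n => ArithmeticFunction.vonMangoldt n)
      have h3 : 0 ≤ ∑ n ∈ s ∩ t, ArithmeticFunction.vonMangoldt n := Finset.sum_nonneg fun n _ => hΛ n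
      linarith
    have h3 := h2 ((Icc 1 (B * X)).filter (fun n : ℕ => ∀ p ∈ pz y, ¬ QA p n))
      ((Ioc (B * X) x).filter (fun n => n.Prime ∧ ∀ p ∈ pz y, ¬ QA p n) ∪
        (Ioc 0 x).filter (fun n => ¬ n.Prime))
    have h4 := h2 ((Ioc (B * X) x).filter (fun n => n.Prime ∧ ∀ p ∈ pz y, ¬ QA p n))
        ((Ioc 0 x).filter (fun n => ¬ n.Prime))
    have h5 : Sf (B * X) = ∑ n ∈ (Icc 1 (B * X)).filter (fun n : ℕ => ∀ p ∈ pz y, ¬ QA p n),
        ArithmeticFunction.vonMangoldt n := rfl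
    linarith
  have hpp : ∑ n ∈ (Ioc 0 x).filter (fun n => ¬ n.Prime), ArithmeticFunction.vonMangoldt n ≤
      2 * √(x : ℝ) * lx := by
    have h1 := Chebyshev.psi_sub_theta_eq_sum_not_prime (x : ℝ)
    have h2 := Chebyshev.psi_sub_theta_le (x := (x : ℝ)) (by exact_mod_cast (by omega : 1 ≤ x))
    rw [h1, Nat.floor_natCast] at h2
    exact h2
  have hlog : ∑ n ∈ (Ioc (B * X) x).filter (fun n => n.Prime ∧ ∀ p ∈ pz y, ¬ QA p n),
      ArithmeticFunction.vonMangoldt n ≤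
      (((Ioc (B * X) x).filter (fun n => n.Prime ∧ ∀ p ∈ pz y, ¬ QA p n)).card : ℝ) * lx := by
    rw [← nsmul_eq_mul]
    apply Finset.sum_le_card_nsmul
    intro n hn
    rw [mem_filter, mem_Ioc] at hn
    rw [ArithmeticFunction.vonMangoldt_apply_prime hn.2.1]
    exact Real.log_le_log (by exact_mod_cast hn.2.1.pos) (by exact_mod_cast hn.1.2)
  have hlx0 : 0 < lx := by linarith
  have hSf2 : (9 / 10) * (x * PI) - x / lx ^ (g + 1) ≤ Sf x := by
    simp only [hSf]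
    linarith
  have hSf1 : Sf (B * X) ≤ (11 / 10) * (x / 2 * PI) + x / lx ^ (g + 1) := by
    simp only [hSf]
    linarith
  have hxPI : c0 * x / lx ^ g ≤ x * PI := by
    calc c0 * x / lx ^ g = x * (c0 / lx ^ g) := by ring
      _ ≤ x * PI := mul_le_mul_of_nonneg_left hPIlow hxpos.le
  set W : ℝ := c0 * x / lx ^ g with hW
  have hW0 : 0 < W := by positivity
  have hA1 : x / lx ^ (g + 1) ≤ W / 40 := by
    rw [hW, pow_succ, div_div, div_le_div_iff₀ (by positivity) (by positivity)]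
    have : (x : ℝ) * lx ^ g * 40 ≤ (x : ℝ) * lx ^ g * (c0 * lx) := by gcongr
    linarith
  have hA2 : 2 * √(x : ℝ) * lx ≤ W / 20 := by
    have hsq : √(x : ℝ) * √(x : ℝ) = x := Real.mul_self_sqrt hxpos.le
    have hlg : 0 < lx ^ g := by positivity
    rw [hW, div_div, le_div_iff₀ (by positivity)]
    calc 2 * √(x : ℝ) * lx * (lx ^ g * 20) = √(x : ℝ) * (40 * lx ^ (g + 1)) := by
          rw [pow_succ]; ring
      _ ≤ √(x : ℝ) * (c0 * √(x : ℝ)) := by gcongr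
      _ = c0 * (√(x : ℝ) * √(x : ℝ)) := by ring
      _ = c0 * x := by rw [hsq]
  have hcount : W / 4 ≤ (((Ioc (B * X) x).filter (fun n => n.Prime ∧
      ∀ p ∈ pz y, ¬ QA p n)).card : ℝ) * lx := by
    linarith
  have hlxX : lx ≤ 2 * Real.log X := by
    have h1 : (x : ℝ) ≤ (X : ℝ) ^ 2 := by
      have : x ≤ X ^ 2 := by rw [hx]; nlinarith
      exact_mod_cast this
    calc lx ≤ Real.log ((X : ℝ) ^ 2) := Real.log_le_log hxpos h1
      _ = 2 * Real.log X := by rw [Real.log_pow]; norm_num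
  have hlX : 0 < Real.log X := by linarith
  calc c0 * B / 2 ^ (g + 2) * X / Real.log X ^ (g + 1) = c0 * x / 4 / (2 * Real.log X) ^ (g + 1) := by
        rw [hx, mul_pow]
        push_cast
        field_simp
        ring
    _ ≤ c0 * x / 4 / lx ^ (g + 1) := by gcongr
    _ = W / 4 / lx := by rw [hW, pow_succ]; field_simp
    _ ≤ _ := by
        rw [div_le_iff₀ hlx0]
        exact hcount

end Pool.Agent.W123.RP
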