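import Pool.Agent.W123.RP.Avg

set_option autoImplicit false

/-!
# Sums over short shifts of upper bounds for pairs
-/

namespace Pool.Agent.W123.RP

open Finset Pool.Agent.H373R2.T7

/-- the product of the sieve -/
noncomputable def Vq (Q : ℕ → ℕ → Prop) (y : ℕ) : ℝ := ∏ p ∈ pz y, (1 - (nuB Q p : ℝ) / p)

/-- sieve data -/
structure Sdata (Q : ℕ → ℕ → Prop) (R : ℕ → ℤ) (c p0 D : ℕ) : Prop where
  per : PerB Q c
  adm : ∀ p : ℕ, p.Prime → nuB Q p < p
  big : 2 * c ≤ p0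
  coll : ∀ p : ℕ, p.Prime → p0 < p → ∀ h m : ℕ, Q p m → Q p (m + h) → (p : ℤ) ∣ R h
  cR : Coll R p0 D

/-- the system of pairs -/
def Qh (Q : ℕ → ℕ → Prop) (h p m : ℕ) : Prop := Q p m ∨ Q p (m + h)

open Classical in
theorem nuB_shift (Q : ℕ → ℕ → Prop) (c : ℕ) (hQ : PerB Q c) (h p : ℕ) :
    ((range p).filter (fun r => Q p (r + h))).card = nuB Q p := by
  have hper : Function.Periodic (fun n => Q p n) p := by
    intro n
    have h1 := hQ.per p (n + p)
    rw [Nat.add_mod_right, ← hQ.per p n] at h1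
    exact propext h1
  have h2 := Nat.filter_Ico_card_eq_of_periodic h p (fun n => Q p n) hper
  have h3 := Nat.filter_Ico_card_eq_of_periodic 0 p (fun n => Q p n) hper
  rw [zero_add, Nat.Ico_zero_eq_range] at h3
  unfold nuB
  have h4 : ((range p).filter (fun r => Q p r)).card = ((Ico h (h + p)).filter (fun n => Q p n)).card := by
    rw [h2, ← h3]
  rw [show ((range p).filter (fun r => Q p r)).card =
    ((range p).filter (fun r => Q p r)).card from rfl] at h4
  convert h4.symm using 1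
  · apply Finset.card_bij (fun r _ => r + h)
    · intro r hr
      rw [mem_filter, mem_range] at hr
      rw [mem_filter, mem_Ico]
      exact ⟨by omega, hr.2⟩
    · intro r _ r' _ hrr
      omega
    · intro n hn
      rw [mem_filter, mem_Ico] at hn
      refine ⟨n - h, ?_, by omega⟩
      rw [mem_filter, mem_range, Nat.sub_add_cancel hn.1.1]
      exact ⟨by omega, hn.2⟩

open Classical in
theorem perB_Qh (Q : ℕ → ℕ → Prop) (c : ℕ) (hQ : PerB Q c) (h : ℕ) : PerB (Qh Q h) (2 * c) := by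
  constructor
  · intro p n
    unfold Qh
    rw [hQ.per p n, hQ.per p (n + h), hQ.per p (n % p + h)]
    simp
  · intro p hp
    have h1 : (range p).filter (fun r => Qh Q h p r) ⊆ (range p).filter (fun r => Q p r) ∪
        (range p).filter (fun r => Q p (r + h)) := by
      intro r hr
      rw [mem_filter] at hr
      rw [mem_union, mem_filter, mem_filter]
      rcases hr.2 with h2 | h2
      · exact Or.inl ⟨hr.1, h2⟩
      · exact Or.inr ⟨hr.1, h2⟩
    have h2 := (card_le_card h1).trans (card_union_le _ _)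
    rw [nuB_shift Q c hQ h p] at h2
    have h3 := hQ.few p hp
    have h4 : ((range p).filter (fun r => Q p r)).card = nuB Q p := by unfold nuB; congr
    rw [h4] at h2
    have h5 : nuB (Qh Q h) p = ((range p).filter (fun r => Qh Q h p r)).card := by unfold nuB; congr
    omega

open Classical in
/-- comparison of one factor -/
theorem factor_le (Q : ℕ → ℕ → Prop) (R : ℕ → ℤ) (c p0 D : ℕ) (hS : Sdata Q R c p0 D) (h p : ℕ)
    (hp : p.Prime) : 1 - (nuB (Qh Q h) p : ℝ) / p ≤ (1 - (nuB Q p : ℝ) / p) ^ 2 *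
      (if p ≤ p0 then (p : ℝ) ^ 2 else if (p : ℤ) ∣ R h then 1 + ((2 * c : ℕ) : ℝ) / p else 1) := by
  have hp0 : (0 : ℝ) < p := by exact_mod_cast hp.pos
  have hadm := hS.adm p hp
  have hfew := hS.per.few p hp
  have hnn : (0 : ℝ) ≤ (nuB Q p : ℝ) / p := by positivity
  have hge : nuB Q p ≤ nuB (Qh Q h) p := by
    unfold nuB
    apply card_le_card
    intro r hr
    rw [mem_filter] at hr ⊢
    exact ⟨hr.1, Or.inl hr.2⟩
  by_cases h1 : p ≤ p0
  · rw [if_pos h1]
    have h2 : (nuB Q p : ℝ) + 1 ≤ p := by exact_mod_cast hadm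
    have h3 : 1 / (p : ℝ) ≤ 1 - (nuB Q p : ℝ) / p := by
      rw [le_sub_iff_add_le, ← add_div, div_le_one hp0]
      linarith
    have h4 : (1 : ℝ) ≤ (1 - (nuB Q p : ℝ) / p) ^ 2 * (p : ℝ) ^ 2 := by
      rw [← mul_pow]
      apply one_le_pow₀
      calc (1 : ℝ) = 1 / p * p := by field_simp
        _ ≤ _ := by gcongr
    have h5 : (0 : ℝ) ≤ (nuB (Qh Q h) p : ℝ) / p := by positivity
    linarith
  · rw [if_neg h1]
    push Not at h1
    have hc2 : 2 * (nuB Q p : ℝ) ≤ p := by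
      have := hS.big
      have : 2 * nuB Q p ≤ p := by omega
      exact_mod_cast this
    set u : ℝ := (nuB Q p : ℝ) / p with hu
    have hu2 : u ≤ 1 / 2 := by
      rw [hu, div_le_iff₀ hp0]; linarith
    by_cases h2 : (p : ℤ) ∣ R h
    · rw [if_pos h2]
      have h3 : (nuB Q p : ℝ) / p ≤ (nuB (Qh Q h) p : ℝ) / p := by
        apply div_le_div_of_nonneg_right _ hp0.le
        exact_mod_cast hge
      have h4 : 2 * u ≤ ((2 * c : ℕ) : ℝ) / p := by
        have : (nuB Q p : ℝ) ≤ c := by exact_mod_cast hfew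
        rw [hu]
        push_cast
        rw [← mul_div_assoc]
        gcongr
      have h5 : 1 - u ≤ (1 - u) ^ 2 * (1 + 2 * u) := by nlinarith [mul_nonneg hnn (sub_nonneg.2 hu2)]
      have h6 : (1 - u) ^ 2 * (1 + 2 * u) ≤ (1 - u) ^ 2 * (1 + ((2 * c : ℕ) : ℝ) / p) := by
        gcongr
      linarith
    · rw [if_neg h2, mul_one]
      -- disjoint classes
      have h3 : nuB (Qh Q h) p = 2 * nuB Q p := by
        have h4 : (range p).filter (fun r => Qh Q h p r) = (range p).filter (fun r => Q p r) ∪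
            (range p).filter (fun r => Q p (r + h)) := by
          ext r
          rw [mem_union, mem_filter, mem_filter, mem_filter]
          unfold Qh
          tauto
        have h5 : Disjoint ((range p).filter (fun r => Q p r))
            ((range p).filter (fun r => Q p (r + h))) := by
          rw [disjoint_left]
          intro r hr hr'
          rw [mem_filter] at hr hr'
          exact h2 (hS.coll p hp h1 h r hr.2 hr'.2)
        have h6 := card_union_of_disjoint h5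
        rw [← h4, nuB_shift Q c hS.per h p] at h6
        have h7 : ((range p).filter (fun r => Q p r)).card = nuB Q p := by unfold nuB; congr
        rw [h7] at h6
        have h8 : nuB (Qh Q h) p = ((range p).filter (fun r => Qh Q h p r)).card := by
          unfold nuB; congr
        omega
      rw [h3]
      push_cast
      have : 2 * (nuB Q p : ℝ) / p = 2 * u := by rw [hu]; ring
      rw [this]
      nlinarith [sq_nonneg u]

theorem one_sub_nonneg (Q : ℕ → ℕ → Prop) (p : ℕ) (hp : p.Prime) : 0 ≤ 1 - (nuB Q p : ℝ) / p := by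
  have hp0 : (0 : ℝ) < p := by exact_mod_cast hp.pos
  rw [sub_nonneg, div_le_one hp0]
  exact_mod_cast nuB_le Q p

open Classical in
theorem prod_pair_le (Q : ℕ → ℕ → Prop) (R : ℕ → ℤ) (c p0 D : ℕ) (hS : Sdata Q R c p0 D) (h y : ℕ) :
    ∏ p ∈ pz y, (1 - (nuB (Qh Q h) p : ℝ) / p) ≤ (∏ p ∈ pz p0, (p : ℝ) ^ 2) * (Vq Q y) ^ 2 *
      ∏ p ∈ (pz y).filter (fun p : ℕ => p0 < p ∧ (p : ℤ) ∣ R h), (1 + ((2 * c : ℕ) : ℝ) / p) := by
  have h1 : ∏ p ∈ pz y, (1 - (nuB (Qh Q h) p : ℝ) / p) ≤ ∏ p ∈ pz y, ((1 - (nuB Q p : ℝ) / p) ^ 2 *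
      (if p ≤ p0 then (p : ℝ) ^ 2 else if (p : ℤ) ∣ R h then 1 + ((2 * c : ℕ) : ℝ) / p else 1)) := by
    apply Finset.prod_le_prod
    · intro p hp
      exact one_sub_nonneg _ p (mem_pz.1 hp).2
    · intro p hp
      exact factor_le Q R c p0 D hS h p (mem_pz.1 hp).2
  refine h1.trans ?_
  rw [Finset.prod_mul_distrib, Finset.prod_pow, mul_comm (∏ p ∈ pz p0, (p : ℝ) ^ 2), mul_assoc]
  apply mul_le_mul_of_nonneg_left _ (by positivity)
  rw [Finset.prod_ite]
  apply mul_le_mul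
  · apply Finset.prod_le_prod_of_subset_of_one_le
    · intro p hp
      rw [mem_filter, mem_pz] at hp
      rw [mem_pz]
      exact ⟨hp.2, hp.1.2⟩
    · intro p _; positivity
    · intro p hp _
      have : (1 : ℝ) ≤ p := by exact_mod_cast (mem_pz.1 hp).2.one_lt.le
      exact one_le_pow₀ this
  · rw [Finset.prod_ite, Finset.prod_const_one, mul_one, Finset.filter_filter]
    apply le_of_eq
    apply Finset.prod_congr _ (fun _ _ => rfl)
    ext p
    rw [mem_filter, mem_filter, not_le]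
  · apply Finset.prod_nonneg
    intro p _
    split_ifs <;> positivity
  · positivity

open Classical in
/-- **Sum over short shifts.** -/
theorem pair_sum (Q : ℕ → ℕ → Prop) (R : ℕ → ℤ) (c p0 D D' : ℕ) (hc : 1 ≤ c)
    (hS : Sdata Q R c p0 D) :
    ∃ K : ℕ, 1 ≤ K ∧ ∃ C : ℝ, 0 < C ∧ ∃ x0 : ℕ, ∀ x y : ℕ, x0 ≤ y → y ^ K ≤ x →
      (((Icc 1 x).filter (fun m => ∀ p ∈ pz y, ¬ Q p m)).card : ℝ) ≤ 2 * x * Vq Q y + √(x : ℝ) ∧
      ∀ T : ℕ, x0 ≤ T → ∀ E : Finset ℕ, E ⊆ Icc 1 T → (∀ h ∈ E, R h ≠ 0 ∧ |R h| ≤ (T : ℤ) ^ D') →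
        ∑ h ∈ E, (((Icc 1 x).filter (fun m => ∀ p ∈ pz y, ¬ Qh Q h p m)).card : ℝ) ≤
          C * T * x * (Vq Q y) ^ 2 + T * √(x : ℝ) := by
  obtain ⟨K, x0, hK, hfund⟩ := sys_fund (2 * c) (by omega) 1 one_pos
  obtain ⟨C, hC, T0, hT0, havg⟩ := avg (2 * c) D D' p0
  set C0 : ℝ := ∏ p ∈ pz p0, (p : ℝ) ^ 2 with hC0
  have hC01 : 0 < C0 := by
    apply Finset.prod_pos
    intro p hp
    have : (0 : ℝ) < p := by exact_mod_cast (mem_pz.1 hp).2.pos
    positivity
  refine ⟨K, hK, 2 * C0 * C, by positivity, max x0 T0, ?_⟩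
  intro x y hy hyx
  have hy0 : x0 ≤ y := (le_max_left _ _).trans hy
  have hup : ∀ Q' : ℕ → ℕ → Prop, PerB Q' (2 * c) →
      (((Icc 1 x).filter (fun m => ∀ p ∈ pz y, ¬ Q' p m)).card : ℝ) ≤
      2 * x * ∏ p ∈ pz y, (1 - (nuB Q' p : ℝ) / p) + √(x : ℝ) := by
    intro Q' hQ'
    have h1 := (abs_le.1 (hfund x y hy0 hyx Q' hQ' x)).2
    linarith
  refine ⟨hup Q ⟨hS.per.per, fun p hp => (hS.per.few p hp).trans (by omega)⟩, ?_⟩
  intro T hT E hE hE2
  have hT0' : T0 ≤ T := (le_max_right _ _).trans hT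
  have h1 : ∀ h ∈ E, (((Icc 1 x).filter (fun m => ∀ p ∈ pz y, ¬ Qh Q h p m)).card : ℝ) ≤
      2 * x * (C0 * (Vq Q y) ^ 2) * ∏ p ∈ (pz y).filter (fun p : ℕ => p0 < p ∧ (p : ℤ) ∣ R h),
        (1 + ((2 * c : ℕ) : ℝ) / p) + √(x : ℝ) := by
    intro h hh
    refine (hup (Qh Q h) (perB_Qh Q c hS.per h)).trans ?_
    have h2 := prod_pair_le Q R c p0 D hS h y
    have hx : (0 : ℝ) ≤ 2 * x := by positivity
    have h3 := mul_le_mul_of_nonneg_left h2 hx
    have h4 : 2 * (x : ℝ) * (C0 * (Vq Q y) ^ 2) * ∏ p ∈ (pz y).filter (fun p : ℕ => p0 < p ∧ (p : ℤ) ∣ R h),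
        (1 + ((2 * c : ℕ) : ℝ) / p) = 2 * x * (C0 * (Vq Q y) ^ 2 *
        ∏ p ∈ (pz y).filter (fun p : ℕ => p0 < p ∧ (p : ℤ) ∣ R h), (1 + ((2 * c : ℕ) : ℝ) / p)) := by
      ring
    rw [h4]
    linarith
  refine (Finset.sum_le_sum h1).trans ?_
  rw [Finset.sum_add_distrib, ← Finset.mul_sum, Finset.sum_const, nsmul_eq_mul]
  have h2 := havg T hT0' R hS.cR E hE hE2 y
  have hcard : (E.card : ℝ) ≤ T := by
    have := card_le_card hE
    rw [Nat.card_Icc, Nat.add_sub_cancel] at this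
    exact_mod_cast this
  have h3 : (0 : ℝ) ≤ 2 * x * (C0 * (Vq Q y) ^ 2) := by positivity
  have h4 := mul_le_mul_of_nonneg_left h2 h3
  have h5 : (E.card : ℝ) * √(x : ℝ) ≤ T * √(x : ℝ) := by gcongr
  calc _ ≤ 2 * x * (C0 * (Vq Q y) ^ 2) * (C * T) + T * √(x : ℝ) := add_le_add h4 h5
    _ = _ := by ring

end Pool.Agent.W123.RP
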